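import Pool.Agent.Q103.PA.Tre

namespace Pool.Agent.Q103.PA

open Equiv

variable {T : Type*} {d : T → T → ℤ}

theorem swap_inj {G : Type*} [Group G] {k h : G} (H : Function.Injective (FreeGroup.lift ![k, h])) :
    Function.Injective (FreeGroup.lift ![h, k]) := by
  have e : FreeGroup.lift ![h, k] =
      (FreeGroup.lift ![k, h]).comp (FreeGroup.map (Equiv.swap (0 : Fin 2) 1)) := by
    ext i
    fin_cases i <;> simp
  rw [e, MonoidHom.coe_comp]
  refine H.comp ?_
  have : Function.LeftInverse (FreeGroup.map (Equiv.swap (0 : Fin 2) 1))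
      (FreeGroup.map (Equiv.swap (0 : Fin 2) 1)) := by
    intro x
    rw [FreeGroup.map.comp]
    convert FreeGroup.map.id x
    ext y; simp
  exact this.injective

theorem zp_neg (g : Perm T) (n : ℕ) (p : T) : (g ^ (-(n : ℤ))) p = (g⁻¹ ^ n) p := by
  rw [zpow_neg, zpow_natCast, inv_pow]

theorem zp_pos (g : Perm T) (n : ℕ) (p : T) : (g ^ ((n : ℤ))) p = (g ^ n) p := by
  rw [zpow_natCast]

theorem gz (hT : Tr d) {g : Perm T} (hg : Iso d g) {p : T} (h : Good d g p) (i : ℤ) :
    d p ((g ^ i) p) = i.natAbs * d p (g p) := by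
  obtain ⟨n, rfl | rfl⟩ := i.eq_nat_or_neg
  · rw [zp_pos, good_pow hT hg h, Int.natAbs_natCast]
  · rw [zp_neg, good_pow hT hg.inv (h.inv hT hg), inv_d hT hg, Int.natAbs_neg, Int.natAbs_natCast]

theorem dHn (hT : Tr d) {g : Perm T} (hg : Iso d g) {p p' : T} (h : Good d g p)
    (hmin : ∀ q, Good d g q → d p p' ≤ d q p') (n : ℕ) :
    d ((g ^ n) p) p' = n * d p (g p) + d p p' := by
  have ha := hT.nn p (g p)
  have hD := hT.nn p p'
  rcases ha.eq_or_lt with h0 | hpos
  · have e0 : g p = p := (hT.sep _ _ h0.symm).symm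
    have h1 : (g ^ n) p = p := Function.IsFixedPt.perm_pow (e := g) e0 n
    rw [h1, ← h0]; simp
  · have h1 : d (g p) p' = d p (g p) + d p p' := by
      by_contra hne
      have t := hT.tri (g p) p p'
      have s := hT.symm (g p) p
      obtain ⟨q, q1, q2, q3⟩ := hT.step p (g p) p' (by omega)
      have := hmin q (seg_good hT hg h (by omega))
      omega
    induction n with
    | zero => simp
    | succ n ih =>
      rcases Nat.eq_zero_or_pos n with rfl | hn
      · simp only [zero_add, pow_one, Nat.cast_one, one_mul]; exact h1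
      · have q := hT.hyp p' ((g ^ n) p) p ((g ^ (n+1)) p)
        have g1 := good_pow hT hg h n
        have g2 := good_pow hT hg h (n+1)
        have g3 : d ((g ^ n) p) ((g ^ (n+1)) p) = d p (g p) := by
          rw [pow_succ, Perm.mul_apply, hg.pow n]
        have s1 := hT.symm p' ((g ^ n) p)
        have s2 := hT.symm p' ((g ^ (n+1)) p)
        have s3 := hT.symm p' p
        have s4 := hT.symm ((g ^ n) p) p
        have tr := hT.tri ((g ^ (n+1)) p) p p'
        have s5 := hT.symm ((g ^ (n+1)) p) p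
        have e' : ((n + 1 : ℕ) : ℤ) * d p (g p) = n * d p (g p) + d p (g p) := by
          rw [Nat.cast_succ]; ring
        have pos : 0 < (n : ℤ) * d p (g p) := by
          have : (0:ℤ) < n := by exact_mod_cast hn
          positivity
        rw [e'] at g2 ⊢
        rcases le_max_iff.mp q with q | q <;> omega

theorem dH (hT : Tr d) {g : Perm T} (hg : Iso d g) {p p' : T} (h : Good d g p)
    (hmin : ∀ q, Good d g q → d p p' ≤ d q p') (i : ℤ) :
    d ((g ^ i) p) p' = i.natAbs * d p (g p) + d p p' := by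
  obtain ⟨n, rfl | rfl⟩ := i.eq_nat_or_neg
  · rw [zp_pos, dHn hT hg h hmin, Int.natAbs_natCast]
  · rw [zp_neg, dHn hT hg.inv (h.inv hT hg) ?_ n, inv_d hT hg, Int.natAbs_neg, Int.natAbs_natCast]
    intro q hq
    apply hmin
    have := hq.inv hT hg.inv
    rwa [inv_inv] at this

theorem fix_zpow {g : Perm T} {p : T} (h : g p = p) (j : ℤ) : (g ^ j) p = p :=
  Function.IsFixedPt.perm_zpow (e := g) h j

def Star (g : Perm T) : Prop := ∀ p q, g p = p → ∀ j : ℤ, j ≠ 0 → (g ^ j) q = q → g q = q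

def Rev (k h : Perm T) : Prop := ∀ p, k p = p → ∀ j : ℤ, j ≠ 0 → (k ^ j) (h p) = h⁻¹ p →
  (k ^ j) (h (h p)) = h⁻¹ (h⁻¹ p) → h p = p

theorem good_of_fix (hT : Tr d) {g : Perm T} {p : T} (h : g p = p) : Good d g p := by
  unfold Good; rw [h, h, hT.zero]; simp

theorem dE (hT : Tr d) {k : Perm T} (hk : Iso d k) {p p' : T} (kp : k p = p) (st : Star k)
    (hmin : ∀ q, Good d k q → d p p' ≤ d q p') {j : ℤ} (hj : j ≠ 0) :
    d ((k ^ j) p') p' = 2 * d p p' := by
  by_contra hne
  have f := fix_zpow kp j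
  have i1 : d p ((k ^ j) p') = d p p' := by
    conv_lhs => rw [← f]
    exact hk.zpow j p p'
  have t := hT.tri ((k ^ j) p') p p'
  have s := hT.symm ((k ^ j) p') p
  obtain ⟨q, q1, q2, q3⟩ := hT.step p ((k ^ j) p') p' (by omega)
  have i2 : d p ((k ^ j) q) = d p q := by
    conv_lhs => rw [← f]
    exact hk.zpow j p q
  have i3 : d ((k ^ j) q) ((k ^ j) p') = d q p' := hk.zpow j _ _
  have e : (k ^ j) q = q := by
    refine ovl hT (p := p) (U := (k ^ j) p') (V := (k ^ j) p') (L := 1) (by omega) q1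
      (by omega) (by omega) ?_
    rw [hT.zero]
    have := hT.nn q p'
    omega
  have := hmin q (good_of_fix hT (st p q kp j hj e))
  omega

/-- disjoint good sets, first elliptic -/
theorem disjE (hT : Tr d) {k h : Perm T} (hk : Iso d k) (hh : Iso d h) (sk : Star k) (sh : Star h)
    {p p' : T} (kp : k p = p) (hp' : Good d h p')
    (hmin : ∀ q q', Good d k q → Good d h q' → d p p' ≤ d q q') (hD : 0 < d p p') :
    Function.Injective (FreeGroup.lift ![k, h]) := by
  have hb := hT.nn p' (h p')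
  have F2 : ∀ i : ℤ, d ((h ^ i) p') p = i.natAbs * d p' (h p') + d p' p := by
    intro i
    refine dH hT hh hp' ?_ i
    intro q hq
    rw [hT.symm p' p, hT.symm q p]
    exact hmin p q (good_of_fix hT kp) hq
  have F2' : ∀ i : ℤ, d ((h ^ i) p) p' = i.natAbs * d p' (h p') + d p' p := by
    intro i
    have := F2 (-i)
    rw [Int.natAbs_neg] at this
    rw [← this, ← hh.zpow i ((h ^ (-i)) p') p, ← Perm.mul_apply, ← zpow_add]
    simp [hT.symm]
  have sD := hT.symm p' p
  have F3 : ∀ i : ℤ, i ≠ 0 → d p ((h ^ i) p) = 2 * d p p' + i.natAbs * d p' (h p') := by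
    intro i hi
    rcases hb.eq_or_lt with h0 | hpos
    · have e0 : h p' = p' := (hT.sep _ _ h0.symm).symm
      have := dE hT hh e0 sh (p' := p) (by
        intro q hq
        rw [hT.symm p' p, hT.symm q p]
        exact hmin p q (good_of_fix hT kp) hq) hi
      rw [hT.symm, this, ← h0, sD]; simp
    · have q := hT.hyp p ((h ^ i) p') p' ((h ^ i) p)
      have e1 := F2 i
      have e2 := F2' i
      have e3 : d ((h ^ i) p') ((h ^ i) p) = d p' p := hh.zpow i _ _
      have e4 := gz hT hh hp' i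
      have s1 := hT.symm p ((h ^ i) p')
      have s2 := hT.symm p' ((h ^ i) p)
      have s3 := hT.symm p' ((h ^ i) p')
      have tr := hT.tri p p' ((h ^ i) p)
      have pos : 0 < (i.natAbs : ℤ) * d p' (h p') := by
        have : (0:ℤ) < i.natAbs := by exact_mod_cast Int.natAbs_pos.mpr hi
        positivity
      rcases le_max_iff.mp q with q | q <;> omega
  have F4 : ∀ j : ℤ, j ≠ 0 → d ((k ^ j) p') p' = 2 * d p p' := by
    intro j hj
    exact dE hT hk kp sk (fun q hq => hmin q p' hq hp') hj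
  have main : ∀ j i l : ℤ, j ≠ 0 → i ≠ 0 → l ≠ 0 →
      d p ((h ^ i) p) + d p ((h ^ l) p) ≤ d ((k ^ j) ((h ^ i) p)) ((h ^ l) p) := by
    intro j i l hj hi hl
    have f := fix_zpow kp j
    have q1 := hT.hyp ((h ^ l) p) p ((k ^ j) p') p'
    have q2 := hT.hyp ((h ^ l) p) ((k ^ j) p') p ((k ^ j) ((h ^ i) p))
    have e1 := F3 i hi
    have e2 := F3 l hl
    have e3 := F4 j hj
    have e4 : d ((k ^ j) p') ((k ^ j) ((h ^ i) p)) = d p' ((h ^ i) p) := hk.zpow j _ _
    have e5 : d p ((k ^ j) ((h ^ i) p)) = d p ((h ^ i) p) := by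
      have := hk.zpow j p ((h ^ i) p)
      rwa [f] at this
    have e6 : d p ((k ^ j) p') = d p p' := by
      have := hk.zpow j p p'
      rwa [f] at this
    have e7 := F2' i
    have e8 := F2' l
    have s1 := hT.symm p' ((h ^ i) p)
    have s2 := hT.symm p ((h ^ l) p)
    have s3 := hT.symm ((k ^ j) p') p
    have s4 := hT.symm ((h ^ l) p) ((k ^ j) ((h ^ i) p))
    have n1 : 0 ≤ (i.natAbs : ℤ) * d p' (h p') := by positivity
    have n2 : 0 ≤ (l.natAbs : ℤ) * d p' (h p') := by positivity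
    rcases le_max_iff.mp q1 with q1 | q1 <;> rcases le_max_iff.mp q2 with q2 | q2 <;> omega
  have posR : ∀ i : ℤ, i ≠ 0 → 0 < d p ((h ^ i) p) := by
    intro i hi
    rw [F3 i hi]
    have n1 : 0 ≤ (i.natAbs : ℤ) * d p' (h p') := by positivity
    omega
  refine c2 hT hk hh p kp ?_ ?_
  · intro j i l hj hi hl
    have := main j i l hj hi hl
    have := posR l hl
    omega
  · intro j i l hj hi hl
    have := main j i l hj hi hl
    have := posR i hi
    omega

theorem disj (hT : Tr d) {g h : Perm T} (hg : Iso d g) (hh : Iso d h) (sg : Star g) (sh : Star h)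
    {p p' : T} (gp : Good d g p) (hp' : Good d h p')
    (hmin : ∀ q q', Good d g q → Good d h q' → d p p' ≤ d q q') (hD : 0 < d p p') :
    Function.Injective (FreeGroup.lift ![g, h]) := by
  have ha := hT.nn p (g p)
  have hb := hT.nn p' (h p')
  rcases ha.eq_or_lt with h0 | hpos
  · exact disjE hT hg hh sg sh ((hT.sep _ _ h0.symm).symm) hp' hmin hD
  rcases hb.eq_or_lt with h0 | hpos'
  · apply swap_inj
    refine disjE hT hh hg sh sg (p := p') (p' := p) ((hT.sep _ _ h0.symm).symm) gp ?_ ?_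
    · intro q q' hq hq'
      rw [hT.symm p' p, hT.symm q q']
      exact hmin q' q hq' hq
    · rw [hT.symm]; exact hD
  have sD := hT.symm p' p
  have F1 : ∀ i : ℤ, d ((g ^ i) p) p' = i.natAbs * d p (g p) + d p p' := by
    intro i
    exact dH hT hg gp (fun q hq => hmin q p' hq hp') i
  have F2 : ∀ i : ℤ, d ((h ^ i) p') p = i.natAbs * d p' (h p') + d p' p := by
    intro i
    refine dH hT hh hp' ?_ i
    intro q hq
    rw [hT.symm p' p, hT.symm q p]
    exact hmin p q gp hq
  have F2' : ∀ i : ℤ, d ((h ^ i) p) p' = i.natAbs * d p' (h p') + d p' p := by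
    intro i
    have := F2 (-i)
    rw [Int.natAbs_neg] at this
    rw [← this, ← hh.zpow i ((h ^ (-i)) p') p, ← Perm.mul_apply, ← zpow_add]
    simp [hT.symm]
  have F3 : ∀ i : ℤ, i ≠ 0 → d p ((h ^ i) p) = 2 * d p p' + i.natAbs * d p' (h p') := by
    intro i hi
    have q := hT.hyp p ((h ^ i) p') p' ((h ^ i) p)
    have e1 := F2 i
    have e2 := F2' i
    have e3 : d ((h ^ i) p') ((h ^ i) p) = d p' p := hh.zpow i _ _
    have e4 := gz hT hh hp' i
    have s1 := hT.symm p ((h ^ i) p')
    have s2 := hT.symm p' ((h ^ i) p)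
    have s3 := hT.symm p' ((h ^ i) p')
    have tr := hT.tri p p' ((h ^ i) p)
    have pos : 0 < (i.natAbs : ℤ) * d p' (h p') := by
      have : (0:ℤ) < i.natAbs := by exact_mod_cast Int.natAbs_pos.mpr hi
      positivity
    rcases le_max_iff.mp q with q | q <;> omega
  have main : ∀ i j : ℤ, i ≠ 0 → j ≠ 0 →
      d p ((g ^ i) p) + d p ((h ^ j) p) ≤ d ((g ^ i) p) ((h ^ j) p) := by
    intro i j hi hj
    have q := hT.hyp ((g ^ i) p) p' p ((h ^ j) p)
    have e1 := F1 i
    have e2 := F3 j hj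
    have e3 := F2' j
    have e4 := gz hT hg gp i
    have s1 := hT.symm p' ((h ^ j) p)
    have s2 := hT.symm ((g ^ i) p) p
    have n1 : 0 ≤ (i.natAbs : ℤ) * d p (g p) := by positivity
    have n2 : 0 ≤ (j.natAbs : ℤ) * d p' (h p') := by positivity
    rcases le_max_iff.mp q with q | q <;> omega
  have pos : ∀ i : ℤ, i ≠ 0 → 0 < d p ((g ^ i) p) := by
    intro i hi
    rw [gz hT hg gp i]
    have : (0:ℤ) < i.natAbs := by exact_mod_cast Int.natAbs_pos.mpr hi
    positivity
  have pos' : ∀ i : ℤ, i ≠ 0 → 0 < d p ((h ^ i) p) := by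
    intro i hi
    rw [F3 i hi]
    have n2 : 0 ≤ (i.natAbs : ℤ) * d p' (h p') := by positivity
    omega
  refine c1 hT hg hh p ?_ ?_
  · intro i j hi hj
    have := main i j hi hj
    have := pos' j hj
    omega
  · intro i j hi hj
    have := main i j hi hj
    have := pos i hi
    omega

end Pool.Agent.Q103.PA
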