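import Pool.Agent.Q103.PA.Alt

namespace Pool.Agent.Q103.PA

open Equiv

variable {T : Type*} {d : T → T → ℤ}

theorem HHpos (hT : Tr d) {g h : Perm T} (hg : Iso d g) (hh : Iso d h) {p : T}
    (gp : Good d g p) (hp : Good d h p) (i j : ℕ)
    (hov : d ((g ^ i) p) ((h ^ j) p) ≤
      i * d p (g p) + j * d p (h p) - 2 * (d p (g p) + d p (h p))) :
    g (h p) = h (g p) := by
  have ha := hT.nn p (g p)
  have hb := hT.nn p (h p)
  have a1 := good_pow hT hg gp i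
  have a2 := good_pow hT hg gp (i+1)
  have b1 := good_pow hT hh hp j
  have b2 := good_pow hT hh hp (j+1)
  have ea : ((i + 1 : ℕ) : ℤ) * d p (g p) = i * d p (g p) + d p (g p) := by
    rw [Nat.cast_succ]; ring
  have eb : ((j + 1 : ℕ) : ℤ) * d p (h p) = j * d p (h p) + d p (h p) := by
    rw [Nat.cast_succ]; ring
  rw [ea] at a2
  rw [eb] at b2
  have ha' : d (g p) ((g ^ (i+1)) p) = i * d p (g p) := by
    rw [pow_succ', Perm.mul_apply, hg, a1]
  have hb' : d (h p) ((h ^ (j+1)) p) = j * d p (h p) := by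
    rw [pow_succ', Perm.mul_apply, hh, b1]
  have c1 : d ((g ^ (i+1)) p) ((g ^ i) p) = d p (g p) := by
    rw [pow_succ, Perm.mul_apply, hg.pow i, hT.symm]
  have c2 : d ((h ^ j) p) ((h ^ (j+1)) p) = d p (h p) := by
    rw [pow_succ, Perm.mul_apply, hh.pow j]
  have t1 := hT.tri ((g ^ (i+1)) p) ((g ^ i) p) ((h ^ (j+1)) p)
  have t2 := hT.tri ((g ^ i) p) ((h ^ j) p) ((h ^ (j+1)) p)
  -- `h p` on `[p, g^i p]`
  have tb := hT.tri p ((h ^ j) p) ((g ^ i) p)
  have ta := hT.tri p ((g ^ i) p) ((h ^ j) p)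
  have sUV := hT.symm ((g ^ i) p) ((h ^ j) p)
  -- j ≥ 1 and i ≥ 1 unless trivial
  rcases ha.eq_or_lt with h0 | hpa
  · have e0 : g p = p := (hT.sep _ _ h0.symm).symm
    have e1 : (g ^ i) p = p := Function.IsFixedPt.perm_pow (e := g) e0 i
    rw [e1, b1, ← h0] at hov
    have : d p (h p) = 0 := by omega
    have e2 : h p = p := (hT.sep _ _ this).symm
    rw [e2, e0, e2]
  rcases hb.eq_or_lt with h0 | hpb
  · have e0 : h p = p := (hT.sep _ _ h0.symm).symm
    have e1 : (h ^ j) p = p := Function.IsFixedPt.perm_pow (e := h) e0 j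
    rw [e1, hT.symm, a1, ← h0] at hov
    omega
  have hj : 1 ≤ j := by
    rcases Nat.eq_zero_or_pos j with rfl | hj
    · simp at hov
      rw [hT.symm, a1] at hov
      omega
    · exact hj
  have hi : 1 ≤ i := by
    rcases Nat.eq_zero_or_pos i with rfl | hi
    · simp at hov
      rw [b1] at hov
      omega
    · exact hi
  obtain ⟨j', rfl⟩ : ∃ j', j = j' + 1 := ⟨j - 1, by omega⟩
  obtain ⟨i', rfl⟩ : ∃ i', i = i' + 1 := ⟨i - 1, by omega⟩
  have ea' : ((i' + 1 : ℕ) : ℤ) * d p (g p) = i' * d p (g p) + d p (g p) := by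
    rw [Nat.cast_succ]; ring
  have eb' : ((j' + 1 : ℕ) : ℤ) * d p (h p) = j' * d p (h p) + d p (h p) := by
    rw [Nat.cast_succ]; ring
  have fb : d (h p) ((h ^ (j'+1)) p) = j' * d p (h p) := by
    rw [pow_succ', Perm.mul_apply, hh, good_pow hT hh hp j']
  have fa : d (g p) ((g ^ (i'+1)) p) = i' * d p (g p) := by
    rw [pow_succ', Perm.mul_apply, hg, good_pow hT hg gp i']
  have q1 := hT.hyp (h p) ((g ^ (i'+1)) p) p ((h ^ (j'+1)) p)
  have q2 := hT.hyp (g p) ((h ^ (j'+1)) p) p ((g ^ (i'+1)) p)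
  have s1 := hT.symm (h p) p
  have s2 := hT.symm (g p) p
  have s3 := hT.symm ((g ^ (i'+1)) p) p
  have s4 := hT.symm ((h ^ (j'+1)) p) p
  have U0 : d (h p) ((g ^ (i'+1)) p) ≤ (i' + 1 : ℕ) * d p (g p) - d p (h p) := by
    rcases le_max_iff.mp q1 with q | q <;> omega
  have V0 : d (g p) ((h ^ (j'+1)) p) ≤ (j' + 1 : ℕ) * d p (h p) - d p (g p) := by
    rcases le_max_iff.mp q2 with q | q <;> omega
  have A1 : d (g (h p)) ((g ^ (i'+1+1)) p) = d (h p) ((g ^ (i'+1)) p) := by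
    rw [pow_succ' g (i'+1), Perm.mul_apply, hg]
  have B1 : d (h (g p)) ((h ^ (j'+1+1)) p) = d (g p) ((h ^ (j'+1)) p) := by
    rw [pow_succ' h (j'+1), Perm.mul_apply, hh]
  have u1 := hT.tri p (g p) (g (h p))
  have u2 := hg p (h p)
  have u3 := hT.tri p (h p) (h (g p))
  have u4 := hh p (g p)
  have u5 := hT.tri p (g (h p)) ((g ^ (i'+1+1)) p)
  have u6 := hT.tri p (h (g p)) ((h ^ (j'+1+1)) p)
  refine ovl hT (p := p) (U := (g ^ (i'+1+1)) p) (V := (h ^ (j'+1+1)) p)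
    (L := d p (g p) + d p (h p)) (by omega) (by omega) (by omega) (by omega) (by omega)

theorem comm_inv_left {g h : Perm T} {p : T} (e : g⁻¹ (h p) = h (g⁻¹ p)) :
    g (h (g⁻¹ p)) = h (g (g⁻¹ p)) := by
  rw [← e]; simp

theorem comm_inv_right {g h : Perm T} {p : T} (e : g (h⁻¹ p) = h⁻¹ (g p)) :
    g (h (h⁻¹ p)) = h (g (h⁻¹ p)) := by
  rw [e]; simp

theorem comm_inv_both {g h : Perm T} {p : T} (e : g⁻¹ (h⁻¹ p) = h⁻¹ (g⁻¹ p)) :
    g (h (h⁻¹ (g⁻¹ p))) = h (g (h⁻¹ (g⁻¹ p))) := by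
  conv_rhs => rw [← e]
  simp

theorem HH (hT : Tr d) {g h : Perm T} (hg : Iso d g) (hh : Iso d h) {p : T}
    (gp : Good d g p) (hp : Good d h p) (ha : 0 < d p (g p)) (hb : 0 < d p (h p))
    (hnc : ∀ q, g (h q) ≠ h (g q)) :
    ∃ n : ℕ, 1 ≤ n ∧ Function.Injective (FreeGroup.lift ![g ^ n, h ^ n]) := by
  have main : ∀ i j : ℤ, i.natAbs * d p (g p) + j.natAbs * d p (h p) -
      2 * (d p (g p) + d p (h p)) < d ((g ^ i) p) ((h ^ j) p) := by
    intro i j
    by_contra hcon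
    push Not at hcon
    obtain ⟨m, rfl | rfl⟩ := i.eq_nat_or_neg <;> obtain ⟨n, rfl | rfl⟩ := j.eq_nat_or_neg
    · rw [zp_pos, zp_pos, Int.natAbs_natCast, Int.natAbs_natCast] at hcon
      exact hnc p (HHpos hT hg hh gp hp m n hcon)
    · rw [zp_pos, zp_neg, Int.natAbs_neg, Int.natAbs_natCast, Int.natAbs_natCast] at hcon
      rw [← inv_d hT hh] at hcon
      exact hnc _ (comm_inv_right (HHpos hT hg hh.inv gp (hp.inv hT hh) m n hcon))
    · rw [zp_neg, zp_pos, Int.natAbs_neg, Int.natAbs_natCast, Int.natAbs_natCast] at hcon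
      rw [← inv_d hT hg] at hcon
      exact hnc _ (comm_inv_left (HHpos hT hg.inv hh (gp.inv hT hg) hp m n hcon))
    · rw [zp_neg, zp_neg, Int.natAbs_neg, Int.natAbs_neg, Int.natAbs_natCast,
        Int.natAbs_natCast] at hcon
      rw [← inv_d hT hg, ← inv_d hT hh] at hcon
      exact hnc _ (comm_inv_both
        (HHpos hT hg.inv hh.inv (gp.inv hT hg) (hp.inv hT hh) m n hcon))
  obtain ⟨n, hn⟩ : ∃ n : ℕ, (n : ℤ) = 2 * (d p (g p) + d p (h p)) :=
    ⟨(2 * (d p (g p) + d p (h p))).toNat, by rw [Int.toNat_of_nonneg]; omega⟩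
  have hn1 : 1 ≤ n := by omega
  have big : ∀ (i : ℤ) (c : ℤ), i ≠ 0 → 0 < c → (n : ℤ) ≤ ((n * i).natAbs : ℤ) * c := by
    intro i c hi hc
    rw [Int.natAbs_mul, Int.natAbs_natCast, Nat.cast_mul]
    have : (1:ℤ) ≤ i.natAbs := by exact_mod_cast Int.natAbs_pos.mpr hi
    have h1 : (1:ℤ) ≤ i.natAbs * c := by nlinarith
    have h2 : (0:ℤ) ≤ n := by positivity
    nlinarith
  refine ⟨n, hn1, c1 hT (hg.pow n) (hh.pow n) p ?_ ?_⟩
  · intro i j hi hj
    rw [← zpow_natCast, ← zpow_natCast, ← zpow_mul, ← zpow_mul, gz hT hg gp]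
    have := main (n * i) (n * j)
    have b2 := big j _ hj hb
    omega
  · intro i j hi hj
    rw [← zpow_natCast, ← zpow_natCast, ← zpow_mul, ← zpow_mul, gz hT hh hp]
    have := main (n * i) (n * j)
    have b2 := big i _ hi ha
    omega

theorem EHpos (hT : Tr d) {k h1 h2 : Perm T} (hk : Iso d k) (i1 : Iso d h1) (i2 : Iso d h2)
    {p : T} (kp : k p = p) (g1 : Good d h1 p) (g2 : Good d h2 p) {b : ℤ} (hb : 0 < b)
    (e1 : d p (h1 p) = b) (e2 : d p (h2 p) = b) (j : ℤ) (i l : ℕ)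
    (hov : d ((k ^ j) ((h1 ^ i) p)) ((h2 ^ l) p) ≤ i * b + l * b - 4 * b) :
    (k ^ j) (h1 p) = h2 p ∧ (k ^ j) (h1 (h1 p)) = h2 (h2 p) := by
  have f := fix_zpow kp j
  have kd : ∀ v, d p ((k ^ j) v) = d p v := by
    intro v
    have := hk.zpow j p v
    rwa [f] at this
  have a1 : d p ((k ^ j) ((h1 ^ i) p)) = i * b := by
    rw [kd, good_pow hT i1 g1, e1]
  have a2 : d p ((h2 ^ l) p) = l * b := by
    rw [good_pow hT i2 g2, e2]
  have t1 := hT.tri p ((k ^ j) ((h1 ^ i) p)) ((h2 ^ l) p)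
  have t2 := hT.tri p ((h2 ^ l) p) ((k ^ j) ((h1 ^ i) p))
  have s := hT.symm ((h2 ^ l) p) ((k ^ j) ((h1 ^ i) p))
  have hi : 2 ≤ i := by
    by_contra hc
    have : i = 0 ∨ i = 1 := by omega
    rcases this with rfl | rfl
    · simp only [Nat.cast_zero] at *; omega
    · simp only [Nat.cast_one] at *; omega
  have hl : 2 ≤ l := by
    by_contra hc
    have : l = 0 ∨ l = 1 := by omega
    rcases this with rfl | rfl
    · simp only [Nat.cast_zero] at *; omega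
    · simp only [Nat.cast_one] at *; omega
  obtain ⟨i', rfl⟩ : ∃ i', i = i' + 2 := ⟨i - 2, by omega⟩
  obtain ⟨l', rfl⟩ : ∃ l', l = l' + 2 := ⟨l - 2, by omega⟩
  have c1 : ((i' + 2 : ℕ) : ℤ) * b = i' * b + 2 * b := by push_cast; ring
  have c2 : ((l' + 2 : ℕ) : ℤ) * b = l' * b + 2 * b := by push_cast; ring
  have c1' : ((i' + 1 : ℕ) : ℤ) * b = i' * b + b := by push_cast; ring
  have c2' : ((l' + 1 : ℕ) : ℤ) * b = l' * b + b := by push_cast; ring
  have d1 : d ((k ^ j) (h1 p)) ((k ^ j) ((h1 ^ (i'+2)) p)) = i' * b + b := by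
    rw [hk.zpow j, show i' + 2 = (i' + 1) + 1 from rfl, pow_succ', Perm.mul_apply, i1,
      good_pow hT i1 g1, e1, c1']
  have d2 : d (h2 p) ((h2 ^ (l'+2)) p) = l' * b + b := by
    rw [show l' + 2 = (l' + 1) + 1 from rfl, pow_succ', Perm.mul_apply, i2,
      good_pow hT i2 g2, e2, c2']
  have d3 : d ((k ^ j) (h1 (h1 p))) ((k ^ j) ((h1 ^ (i'+2)) p)) = i' * b := by
    rw [hk.zpow j, show i' + 2 = (i' + 1) + 1 from rfl, pow_succ', Perm.mul_apply, i1,
      pow_succ', Perm.mul_apply, i1, good_pow hT i1 g1, e1]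
  have d4 : d (h2 (h2 p)) ((h2 ^ (l'+2)) p) = l' * b := by
    rw [show l' + 2 = (l' + 1) + 1 from rfl, pow_succ', Perm.mul_apply, i2,
      pow_succ', Perm.mul_apply, i2, good_pow hT i2 g2, e2]
  have r1 : d p ((k ^ j) (h1 p)) = b := by rw [kd, e1]
  have r2 : d p ((k ^ j) (h1 (h1 p))) = 2 * b := by
    rw [kd]; unfold Good at g1; rw [g1, e1]
  have r3 : d p (h2 (h2 p)) = 2 * b := by unfold Good at g2; rw [g2, e2]
  constructor
  · exact ovl hT (p := p) (L := b) r1 e2 (by omega) (by omega)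
      (U := (k ^ j) ((h1 ^ (i'+2)) p)) (V := (h2 ^ (l'+2)) p) (by omega)
  · exact ovl hT (p := p) (L := 2 * b) r2 r3 (U := (k ^ j) ((h1 ^ (i'+2)) p))
      (V := (h2 ^ (l'+2)) p) (by omega) (by omega) (by omega)

theorem EH (hT : Tr d) {k h : Perm T} (hk : Iso d k) (hh : Iso d h) (sk : Star k)
    (rev : Rev k h) {p : T} (kp : k p = p) (hp : Good d h p) (hb : 0 < d p (h p))
    (hnc : ∀ q, k (h q) ≠ h (k q)) :
    ∃ n : ℕ, 1 ≤ n ∧ Function.Injective (FreeGroup.lift ![k ^ n, h ^ n]) := by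
  have hne : h p ≠ p := by
    intro e; rw [e, hT.zero] at hb; omega
  have main : ∀ j i l : ℤ, j ≠ 0 → i.natAbs * d p (h p) + l.natAbs * d p (h p) -
      4 * d p (h p) < d ((k ^ j) ((h ^ i) p)) ((h ^ l) p) := by
    intro j i l hj
    by_contra hcon
    push Not at hcon
    have hinv := inv_d hT hh p
    obtain ⟨m, rfl | rfl⟩ := i.eq_nat_or_neg <;> obtain ⟨n, rfl | rfl⟩ := l.eq_nat_or_neg
    · rw [zp_pos, zp_pos, Int.natAbs_natCast, Int.natAbs_natCast] at hcon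
      obtain ⟨x, -⟩ := EHpos hT hk hh hh kp hp hp hb rfl rfl j m n hcon
      apply hnc p
      rw [sk p (h p) kp j hj x, kp]
    · rw [zp_pos, zp_neg, Int.natAbs_neg, Int.natAbs_natCast, Int.natAbs_natCast] at hcon
      obtain ⟨x, y⟩ := EHpos hT hk hh hh.inv kp hp (hp.inv hT hh) hb rfl hinv j m n hcon
      exact hne (rev p kp j hj x y)
    · rw [zp_neg, zp_pos, Int.natAbs_neg, Int.natAbs_natCast, Int.natAbs_natCast] at hcon
      obtain ⟨x, y⟩ := EHpos hT hk hh.inv hh kp (hp.inv hT hh) hp hb hinv rfl j m n hcon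
      refine hne (rev p kp (-j) (neg_ne_zero.mpr hj) ?_ ?_)
      · rw [← x, ← Perm.mul_apply, ← zpow_add]; simp
      · rw [← y, ← Perm.mul_apply, ← zpow_add]; simp
    · rw [zp_neg, zp_neg, Int.natAbs_neg, Int.natAbs_neg, Int.natAbs_natCast,
        Int.natAbs_natCast] at hcon
      obtain ⟨x, -⟩ := EHpos hT hk hh.inv hh.inv kp (hp.inv hT hh) (hp.inv hT hh) hb hinv hinv
        j m n hcon
      have z := sk p (h⁻¹ p) kp j hj x
      apply hnc (h⁻¹ p)
      rw [z]; simp [kp]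
  have big : ∀ (i : ℤ), i ≠ 0 → 4 * d p (h p) ≤ (((4:ℤ) * i).natAbs : ℤ) * d p (h p) := by
    intro i hi
    rw [Int.natAbs_mul, Nat.cast_mul]
    have : (1:ℤ) ≤ i.natAbs := by exact_mod_cast Int.natAbs_pos.mpr hi
    have e4 : (((4:ℤ).natAbs : ℕ) : ℤ) = 4 := rfl
    rw [e4]
    nlinarith
  have c4 : ∀ (x : Perm T) (i : ℤ), (x ^ 4) ^ i = x ^ ((4:ℤ) * i) := by
    intro x i
    rw [zpow_mul]; rfl
  have k4 : (k ^ 4) p = p := Function.IsFixedPt.perm_pow (e := k) kp 4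
  refine ⟨4, by norm_num, c2 hT (hk.pow 4) (hh.pow 4) p k4 ?_ ?_⟩
  · intro j i l hj hi hl
    rw [c4, c4, c4, gz hT hh hp]
    have := main (4 * j) (4 * i) (4 * l) (by omega)
    have b2 := big l hl
    omega
  · intro j i l hj hi hl
    rw [c4, c4, c4, gz hT hh hp]
    have := main (4 * j) (4 * i) (4 * l) (by omega)
    have b2 := big i hi
    omega

theorem alt (hT : Tr d) [Nonempty T] {g h : Perm T} (hg : Iso d g) (hh : Iso d h)
    (ng : ∀ p, d p (g p) = 1 → g (g p) ≠ p) (nh : ∀ p, d p (h p) = 1 → h (h p) ≠ p)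
    (sg : Star g) (sh : Star h) (rgh : Rev g h) (rhg : Rev h g) :
    (∃ q, g (h q) = h (g q)) ∨
      ∃ n : ℕ, 1 ≤ n ∧ Function.Injective (FreeGroup.lift ![g ^ n, h ^ n]) := by
  obtain ⟨x, hx⟩ := exists_good hT hg ng
  obtain ⟨y, hy⟩ := exists_good hT hh nh
  obtain ⟨⟨p, p'⟩, ⟨hp, hp'⟩, hmin⟩ := WellFounded.has_min
    (measure (fun z : T × T => (d z.1 z.2).toNat)).wf
    {z : T × T | Good d g z.1 ∧ Good d h z.2} ⟨(x, y), hx, hy⟩
  have hm : ∀ q q', Good d g q → Good d h q' → d p p' ≤ d q q' := by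
    intro q q' h1 h2
    have : ¬ (d q q').toNat < (d p p').toNat := hmin (q, q') ⟨h1, h2⟩
    have n1 := hT.nn p p'
    have n2 := hT.nn q q'
    omega
  simp only at hp hp'
  rcases (hT.nn p p').eq_or_lt with h0 | hpos
  · have : p = p' := hT.sep _ _ h0.symm
    subst this
    by_cases hnc : ∃ q, g (h q) = h (g q)
    · exact Or.inl hnc
    right
    push Not at hnc
    rcases (hT.nn p (g p)).eq_or_lt with ha | ha
    · have gp : g p = p := (hT.sep _ _ ha.symm).symm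
      rcases (hT.nn p (h p)).eq_or_lt with hb | hb
      · have hp0 : h p = p := (hT.sep _ _ hb.symm).symm
        exact absurd (by rw [hp0, gp, hp0]) (hnc p)
      · exact EH hT hg hh sg rgh gp hp' hb hnc
    · rcases (hT.nn p (h p)).eq_or_lt with hb | hb
      · have hp0 : h p = p := (hT.sep _ _ hb.symm).symm
        obtain ⟨n, h1, h2⟩ := EH hT hh hg sh rhg hp0 hp ha (fun q => (hnc q).symm)
        exact ⟨n, h1, swap_inj h2⟩
      · exact HH hT hg hh hp hp' ha hb hnc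
  · right
    refine ⟨1, le_rfl, ?_⟩
    rw [pow_one, pow_one]
    exact disj hT hg hh sg sh hp hp' hm hpos

end Pool.Agent.Q103.PA
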