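import Pool.Agent.Q103.PA.Alt2
import Pool.Agent.Helper180.FreeMetric

namespace Pool.Agent.Q103.PA

open Equiv Pool.Agent.Helper180.FreeMetric

variable {X : Type} [DecidableEq X]

/-- the word metric -/
def fd (u v : FreeGroup X) : ℤ := ((u⁻¹ * v).norm : ℤ)

theorem fd_mul (w u v : FreeGroup X) : fd (w * u) (w * v) = fd u v := by
  unfold fd
  congr 2
  group

theorem fd_gp (x y z : FreeGroup X) : fd z x + fd z y - fd x y = gp (z⁻¹ * x) (z⁻¹ * y) := by
  unfold fd gp
  congr 3
  group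

theorem fd_symm (u v : FreeGroup X) : fd u v = fd v u := by
  unfold fd
  rw [← FreeGroup.norm_inv_eq]
  congr 2
  group

theorem fd_tr : Tr (fd : FreeGroup X → FreeGroup X → ℤ) where
  zero u := by simp [fd]
  sep u v h := by
    unfold fd at h
    have : (u⁻¹ * v).norm = 0 := by exact_mod_cast h
    rw [FreeGroup.norm_eq_zero] at this
    exact (inv_mul_eq_one.mp this)
  symm := fd_symm
  hyp x y z w := by
    have h := gp_hyp (w⁻¹ * x) (w⁻¹ * z) (w⁻¹ * y)
    rw [← fd_gp, ← fd_gp, ← fd_gp] at h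
    have s1 := fd_symm w x
    have s2 := fd_symm w y
    have s3 := fd_symm w z
    have s4 := fd_symm z y
    rw [min_le_iff] at h
    rw [le_max_iff]
    omega
  step p u v h := by
    have hg := fd_gp u v p
    have he := gp_eq (p⁻¹ * u) (p⁻¹ * v)
    have hu : 1 ≤ (p⁻¹ * u).norm := by
      have t1 := gp_eq (p⁻¹ * u) (p⁻¹ * v)
      have t2 := FreeGroup.norm_mul_le (p⁻¹ * u) ((p⁻¹ * u)⁻¹ * (p⁻¹ * v))
      have e1 : (p⁻¹ * u) * ((p⁻¹ * u)⁻¹ * (p⁻¹ * v)) = p⁻¹ * v := by group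
      have e2 : (p⁻¹ * u)⁻¹ * (p⁻¹ * v) = u⁻¹ * v := by group
      rw [e1, e2] at t2
      unfold fd at h
      omega
    obtain ⟨z, z1, z2⟩ := exists_initial (p⁻¹ * u) 1 hu
    have g1 : gp z (p⁻¹ * u) = 2 := by
      unfold gp; omega
    have g2 := gp_hyp z (p⁻¹ * u) (p⁻¹ * v)
    have g3 : 2 ≤ gp (p⁻¹ * u) (p⁻¹ * v) := by omega
    have g4 : 2 ≤ gp z (p⁻¹ * v) := by omega
    have g5 : gp z (p⁻¹ * v) ≤ 2 * z.norm := by
      have t2 := FreeGroup.norm_mul_le z (z⁻¹ * (p⁻¹ * v))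
      have e1 : z * (z⁻¹ * (p⁻¹ * v)) = p⁻¹ * v := by group
      rw [e1] at t2
      unfold gp
      omega
    refine ⟨p * z, ?_, ?_, ?_⟩
    · unfold fd
      rw [inv_mul_cancel_left, z1]; rfl
    · unfold fd
      rw [mul_inv_rev, mul_assoc]
      omega
    · unfold fd
      rw [mul_inv_rev, mul_assoc]
      unfold gp at g4 g5
      omega

/-- the twisted translation `v ↦ w · σ(v)` -/
def aff (w : FreeGroup X) (σ : Perm X) : Perm (FreeGroup X) :=
  Equiv.mulLeft w * (FreeGroup.freeGroupCongr σ).toEquiv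

omit [DecidableEq X] in
theorem aff_apply (w : FreeGroup X) (σ : Perm X) (v : FreeGroup X) :
    aff w σ v = w * FreeGroup.map σ v := rfl

omit [DecidableEq X] in
theorem map_comp' (σ τ : Perm X) (v : FreeGroup X) :
    FreeGroup.map (σ * τ) v = FreeGroup.map σ (FreeGroup.map τ v) := by
  rw [FreeGroup.map.comp]; rfl

omit [DecidableEq X] in
theorem aff_mul (w w' : FreeGroup X) (σ τ : Perm X) :
    aff w σ * aff w' τ = aff (w * FreeGroup.map σ w') (σ * τ) := by
  ext v
  rw [Perm.mul_apply, aff_apply, aff_apply, aff_apply, map_mul, map_comp', mul_assoc]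

omit [DecidableEq X] in
theorem map_one' (v : FreeGroup X) : FreeGroup.map (1 : Perm X) v = v := by
  change FreeGroup.map (id : X → X) v = v
  exact FreeGroup.map.id v

omit [DecidableEq X] in
theorem aff_one : aff (1 : FreeGroup X) (1 : Perm X) = 1 := by
  ext v; rw [aff_apply, map_one', one_mul]; rfl

omit [DecidableEq X] in
theorem aff_pow (w : FreeGroup X) (σ : Perm X) (n : ℕ) :
    ∃ w', aff w σ ^ n = aff w' (σ ^ n) := by
  induction n with
  | zero => exact ⟨1, by rw [pow_zero, pow_zero, aff_one]⟩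
  | succ n ih =>
    obtain ⟨w', h⟩ := ih
    exact ⟨_, by rw [pow_succ, h, aff_mul, pow_succ]⟩

omit [DecidableEq X] in
theorem aff_inv (w : FreeGroup X) (σ : Perm X) :
    ∃ w', (aff w σ)⁻¹ = aff w' σ⁻¹ := by
  refine ⟨FreeGroup.map (⇑(σ⁻¹ : Perm X)) w⁻¹, ?_⟩
  rw [inv_eq_iff_mul_eq_one, aff_mul, ← map_comp', mul_inv_cancel, map_one', mul_inv_cancel,
    aff_one]

omit [DecidableEq X] in
theorem aff_zpow (w : FreeGroup X) (σ : Perm X) (j : ℤ) :
    ∃ w', aff w σ ^ j = aff w' (σ ^ j) := by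
  obtain ⟨n, rfl | rfl⟩ := j.eq_nat_or_neg
  · obtain ⟨w', h⟩ := aff_pow w σ n
    exact ⟨w', by rw [zpow_natCast, zpow_natCast, h]⟩
  · obtain ⟨w', h⟩ := aff_pow w σ n
    obtain ⟨w'', h'⟩ := aff_inv w' (σ ^ n)
    exact ⟨w'', by rw [zpow_neg, zpow_neg, zpow_natCast, zpow_natCast, h, h']⟩

theorem norm_map (σ : Perm X) (v : FreeGroup X) : (FreeGroup.map σ v).norm = v.norm := by
  have le : ∀ (τ : Perm X) (v : FreeGroup X), (FreeGroup.map τ v).norm ≤ v.norm := by
    intro τ v
    conv_lhs => rw [← FreeGroup.mk_toWord (x := v)]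
    rw [FreeGroup.map.mk]
    exact (FreeGroup.norm_mk_le).trans (by simp [FreeGroup.norm])
  refine le_antisymm (le σ v) ?_
  have := le σ⁻¹ (FreeGroup.map σ v)
  rwa [← map_comp', inv_mul_cancel, map_one'] at this

theorem aff_iso (w : FreeGroup X) (σ : Perm X) : Iso fd (aff w σ) := by
  intro u v
  rw [aff_apply, aff_apply, fd_mul]
  unfold fd
  rw [← map_inv, ← map_mul, norm_map]

/-- exponent sum -/
def es : FreeGroup X →* Multiplicative ℤ := FreeGroup.lift (fun _ => Multiplicative.ofAdd 1)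

omit [DecidableEq X] in
theorem es_map (σ : Perm X) (v : FreeGroup X) : es (FreeGroup.map σ v) = es v := by
  have : (es (X := X)).comp (FreeGroup.map σ) = es := by
    ext x; simp [es]
  exact DFunLike.congr_fun this v

theorem aff_noinv (w : FreeGroup X) (σ : Perm X) (p : FreeGroup X)
    (h : fd p (aff w σ p) = 1) : aff w σ (aff w σ p) ≠ p := by
  intro e
  have e1 : es (aff w σ (aff w σ p)) = es w * es w * es p := by
    rw [aff_apply, map_mul, es_map, aff_apply, map_mul, es_map, mul_assoc]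
  rw [e] at e1
  have e2 : es w * es w = 1 := by
    have := e1.symm
    rwa [mul_eq_right] at this
  have e3 : es w = 1 := by
    have h2 : Multiplicative.toAdd (es w) + Multiplicative.toAdd (es w) = 0 := by
      rw [← toAdd_mul, e2]; rfl
    have h3 : Multiplicative.toAdd (es w) = 0 := by omega
    exact Multiplicative.toAdd.injective h3
  have e4 : es (p⁻¹ * aff w σ p) = 1 := by
    rw [map_mul, aff_apply, map_mul, es_map, e3, one_mul, map_inv, inv_mul_cancel]
  unfold fd at h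
  have h1 : (p⁻¹ * aff w σ p).norm = 1 := by exact_mod_cast h
  set y := p⁻¹ * aff w σ p with hy
  have h2 : y.toWord.length = 1 := h1
  obtain ⟨⟨x, b⟩, hx⟩ := List.length_eq_one_iff.mp h2
  have h3 : y = FreeGroup.mk [(x, b)] := by rw [← hx, FreeGroup.mk_toWord]
  rw [h3] at e4
  cases b <;> simp [es, FreeGroup.lift_mk] at e4

/-- pointwise condition on letters -/
def PStar (σ : Perm X) : Prop := ∀ x, ∀ j : ℤ, j ≠ 0 → (σ ^ j) x = x → σ x = x

theorem map_fix (σ : Perm X) (v : FreeGroup X) (h : FreeGroup.map σ v = v) :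
    ∀ x ∈ v.toWord, σ x.1 = x.1 := by
  have e : (FreeGroup.map σ v).toWord = v.toWord.map (fun x => (σ x.1, x.2)) := by
    conv_lhs => rw [← FreeGroup.mk_toWord (x := v)]
    rw [FreeGroup.map.mk]
    apply List.Sublist.eq_of_length
    · rw [FreeGroup.toWord_mk]
      exact (FreeGroup.reduce.red.sublist)
    · have := norm_map σ v
      unfold FreeGroup.norm at this
      rw [FreeGroup.toWord_mk, List.length_map]
      conv_rhs => rw [← this]
      conv_rhs => rw [← FreeGroup.mk_toWord (x := v)]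
      rw [FreeGroup.map.mk, FreeGroup.toWord_mk]
  rw [h] at e
  intro x hx
  have e' : v.toWord.map (fun x => (σ x.1, x.2)) = v.toWord.map id := by
    rw [List.map_id]; exact e.symm
  have h2 := List.map_inj_left.mp e' x hx
  exact congrArg Prod.fst h2

theorem map_fix' (σ : Perm X) (v : FreeGroup X) (h : ∀ x ∈ v.toWord, σ x.1 = x.1) :
    FreeGroup.map σ v = v := by
  conv_lhs => rw [← FreeGroup.mk_toWord (x := v)]
  rw [FreeGroup.map.mk]
  conv_rhs => rw [← FreeGroup.mk_toWord (x := v)]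
  congr 1
  conv_rhs => rw [← List.map_id v.toWord]
  apply List.map_inj_left.mpr
  intro x hx
  exact Prod.ext (h x hx) rfl

theorem pstar_map {σ : Perm X} (hs : PStar σ) {v : FreeGroup X} {j : ℤ} (hj : j ≠ 0)
    (h : FreeGroup.map (σ ^ j) v = v) : FreeGroup.map σ v = v :=
  map_fix' σ v fun x hx => hs x.1 j hj (map_fix (σ ^ j) v h x hx)

omit [DecidableEq X] in
theorem aff_base {w : FreeGroup X} {σ : Perm X} (p u : FreeGroup X) :
    aff w σ (p * u) = aff w σ p * FreeGroup.map σ u := by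
  rw [aff_apply, aff_apply, map_mul, mul_assoc]

theorem aff_star {w : FreeGroup X} {σ : Perm X} (hs : PStar σ) : Star (aff w σ) := by
  intro p q hp j hj hq
  obtain ⟨w', hw⟩ := aff_zpow w σ j
  have f := fix_zpow hp j
  rw [hw] at f hq
  have e : q = p * (p⁻¹ * q) := by group
  rw [e, aff_base, f] at hq
  have h1 := mul_left_cancel hq
  have h2 := pstar_map hs hj h1
  rw [e, aff_base, hp, h2]

theorem aff_rev {w w' : FreeGroup X} {σ σ' : Perm X} (hs : PStar σ) (hs' : PStar σ')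
    (hc : Commute σ σ') : Rev (aff w σ) (aff w' σ') := by
  intro o ho j hj e1 e2
  set k := aff w σ with hk
  set h := aff w' σ' with hh
  obtain ⟨wk, hwk⟩ := aff_zpow w σ j
  obtain ⟨wk', hwk'⟩ := aff_inv wk (σ ^ j)
  obtain ⟨wh, hwh⟩ := aff_inv w' σ'
  set K := k ^ j with hK
  have ko : K o = o := fix_zpow ho j
  -- m = h² K h K⁻¹ h⁻¹ is affine with permutation σ'²
  have hm : ∃ wm, h * (h * (K * (h * (K⁻¹ * h⁻¹)))) = aff wm (σ' ^ 2) := by
    have c1 : Commute (σ ^ j) σ' := hc.zpow_left j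
    have c2 : σ' * (σ' * (σ ^ j * (σ' * ((σ ^ j)⁻¹ * σ'⁻¹)))) = σ' ^ 2 := by
      have : σ ^ j * (σ' * ((σ ^ j)⁻¹ * σ'⁻¹)) = 1 := by
        rw [← mul_assoc, c1.eq]; group
      rw [this, mul_one, pow_two]
    rw [← c2, hwk, hwk', hwh, hh, aff_mul, aff_mul, aff_mul, aff_mul, aff_mul]
    exact ⟨_, rfl⟩
  obtain ⟨wm, hm⟩ := hm
  have hKi : ∀ x y, K x = y → K⁻¹ y = x := by
    intro x y e; rw [← e]; simp
  have m1 : aff wm (σ' ^ 2) o = o := by
    rw [← hm]
    simp only [Perm.mul_apply]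
    rw [hKi _ _ e1, e2]; simp
  have m2 : aff wm (σ' ^ 2) (h o) = h o := by
    rw [← hm]
    simp only [Perm.mul_apply]
    have : h⁻¹ (h o) = o := by simp
    rw [this, hKi o o ko, e1]; simp
  set u := o⁻¹ * h o with hu
  have hou : h o = o * u := by rw [hu]; group
  have m3 : FreeGroup.map (⇑(σ' ^ 2 : Perm X)) u = u := by
    rw [hou, aff_base, m1] at m2
    exact mul_left_cancel m2
  have m4 : FreeGroup.map σ' u = u := by
    refine pstar_map hs' (j := 2) (by norm_num) ?_
    exact_mod_cast m3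
  have m5 : h⁻¹ o = o * u⁻¹ := by
    have : h (o * u⁻¹) = o := by
      rw [hh, aff_base, ← hh, hou, map_inv, m4]; group
    calc h⁻¹ o = h⁻¹ (h (o * u⁻¹)) := by rw [this]
      _ = o * u⁻¹ := by simp
  have m6 : FreeGroup.map (σ ^ j) u = u⁻¹ := by
    rw [m5, hou, hwk, aff_base, ← hwk, ko] at e1
    exact mul_left_cancel e1
  have m7 : FreeGroup.map (σ ^ (2 * j)) u = u := by
    rw [two_mul, zpow_add, map_comp', m6, map_inv, m6, inv_inv]
  have m8 : FreeGroup.map σ u = u := pstar_map hs (j := 2 * j) (by omega) m7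
  have m9 : FreeGroup.map (σ ^ j) u = u := by
    apply map_fix'
    intro x hx
    exact fix_zpow (map_fix σ u m8 x hx) j
  rw [m9] at m6
  have m10 : u ^ 2 = 1 := by
    rw [pow_two]; nth_rw 1 [m6]; simp
  have m11 : u = 1 := by
    refine pow_left_injective (M := FreeGroup X) (n := 2) (by norm_num) ?_
    simpa using m10
  rw [hou, m11, mul_one]

/-- **D0.** -/
theorem D0 {w w' : FreeGroup X} {σ σ' : Perm X} (hs : PStar σ) (hs' : PStar σ')
    (hc : Commute σ σ') : Commute (aff w σ) (aff w' σ') ∨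
      ∃ n : ℕ, 1 ≤ n ∧ Function.Injective (FreeGroup.lift ![aff w σ ^ n, aff w' σ' ^ n]) := by
  rcases alt (fd_tr (X := X)) (aff_iso w σ) (aff_iso w' σ') (fun p => aff_noinv w σ p)
    (fun p => aff_noinv w' σ' p) (aff_star hs) (aff_star hs') (aff_rev hs hs' hc)
    (aff_rev hs' hs hc.symm) with ⟨q, hq⟩ | h
  · left
    have e1 : aff w σ * aff w' σ' = aff (w * FreeGroup.map σ w') (σ * σ') := aff_mul ..
    have e2 : aff w' σ' * aff w σ = aff (w' * FreeGroup.map σ' w) (σ * σ') := by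
      rw [aff_mul, hc.eq]
    have e3 : aff (w * FreeGroup.map σ w') (σ * σ') q = aff (w' * FreeGroup.map σ' w) (σ * σ') q := by
      rw [← e1, ← e2]; exact hq
    rw [aff_apply, aff_apply] at e3
    have e4 := mul_right_cancel e3
    change aff w σ * aff w' σ' = aff w' σ' * aff w σ
    rw [e1, e2, e4]
  · right; exact h

end Pool.Agent.Q103.PA
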