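import Pool.Agent.Q103.PA.SD

namespace Pool.Agent.Q103.PA

open Equiv Pool.Agent.Helper180.FreeMetric

/-- the commutator `x y x⁻¹ y⁻¹` -/
def cm {H : Type*} [Group H] (x y : H) : H := x * y * x⁻¹ * y⁻¹

theorem cm_map {H K : Type*} [Group H] [Group K] (f : H →* K) (x y : H) :
    f (cm x y) = cm (f x) (f y) := by simp [cm]

theorem cm_one_iff {H : Type*} [Group H] {x y : H} : cm x y = 1 ↔ Commute x y := by
  unfold cm
  rw [mul_inv_eq_one, mul_inv_eq_iff_eq_mul]
  exact Iff.rfl

abbrev F := FreeGroup (Fin 3)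

def gx : F := FreeGroup.of 0
def gs : F := FreeGroup.of 1
def gw : F := FreeGroup.of 2

/-- relators of `Q = ⟨x, s, w | s x s⁻¹ = x², [x, w] = 1⟩` -/
def relQ : Set F := {gs * gx * gs⁻¹ * gx⁻¹ * gx⁻¹, gx * gw * gx⁻¹ * gw⁻¹}

abbrev Q := PresentedGroup relQ

def pr : F →* Q := PresentedGroup.mk relQ

theorem pr_surj : Function.Surjective pr := PresentedGroup.mk_surjective relQ

/-- the two-sided action of `F × F` on `Q` -/
def rho : F × F →* Perm Q where
  toFun c := Equiv.mulLeft (pr c.1) * Equiv.mulRight (pr c.2)⁻¹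
  map_one' := by
    ext q; simp
  map_mul' c e := by
    ext q
    simp [mul_assoc]

theorem rho_apply (c : F × F) (q : Q) : rho c q = pr c.1 * q * (pr c.2)⁻¹ := by
  change pr c.1 * (q * (pr c.2)⁻¹) = _
  rw [mul_assoc]

abbrev Gam := FreeGroup Q ⋊[phi rho] (F × F)

theorem gam_pa : PA Gam := sd_pa rho ((spa_free (Fin 3)).prod (spa_free (Fin 3))).pa

abbrev B := Fin 3 ⊕ Fin 3 ⊕ Unit

def ga (i : Fin 3) : FreeGroup B := FreeGroup.of (Sum.inl i)
def gb (i : Fin 3) : FreeGroup B := FreeGroup.of (Sum.inr (Sum.inl i))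
def gt : FreeGroup B := FreeGroup.of (Sum.inr (Sum.inr ()))

/-- the relators of the example -/
def relG : Set (FreeGroup B) :=
  {r | ∃ i j, r = cm (ga i) (gb j)} ∪ {r | ∃ i, r = cm gt (ga i * gb i)} ∪
    {r | ∃ q ∈ relQ, r = cm gt (FreeGroup.lift ga q)}

theorem relG_finite : relG.Finite := by
  unfold relG
  refine Set.Finite.union (Set.Finite.union ?_ ?_) ?_
  · refine (Set.finite_range (fun p : Fin 3 × Fin 3 => cm (ga p.1) (gb p.2))).subset ?_
    rintro r ⟨i, j, rfl⟩
    exact ⟨(i, j), rfl⟩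
  · refine (Set.finite_range (fun p : Fin 3 => cm gt (ga p * gb p))).subset ?_
    rintro r ⟨i, rfl⟩
    exact ⟨i, rfl⟩
  · have : relQ.Finite := by unfold relQ; exact Set.toFinite _
    refine (this.image (fun q => cm gt (FreeGroup.lift ga q))).subset ?_
    rintro r ⟨q, hq, rfl⟩
    exact ⟨q, hq, rfl⟩

abbrev G := PresentedGroup relG

def A : F →* G := FreeGroup.lift fun i => PresentedGroup.of (Sum.inl i)
def Bh : F →* G := FreeGroup.lift fun i => PresentedGroup.of (Sum.inr (Sum.inl i))
def t : G := PresentedGroup.of (Sum.inr (Sum.inr ()))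

theorem mk_rel {r : FreeGroup B} (h : r ∈ relG) : PresentedGroup.mk relG r = 1 :=
  (PresentedGroup.mk_eq_one_iff).mpr (Subgroup.subset_normalClosure h)

theorem A_eq (q : F) : A q = PresentedGroup.mk relG (FreeGroup.lift ga q) := by
  have : A = (PresentedGroup.mk relG).comp (FreeGroup.lift ga) := by
    ext i; simp [A, ga]; rfl
  rw [this]; rfl

theorem AB_gen (i j : Fin 3) : Commute (A (FreeGroup.of i)) (Bh (FreeGroup.of j)) := by
  have h := mk_rel (Or.inl (Or.inl ⟨i, j, rfl⟩))
  rw [cm_map, cm_one_iff] at h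
  rw [A, Bh, FreeGroup.lift_apply_of, FreeGroup.lift_apply_of]
  exact h

theorem comm_gen {H : Type*} [Group H] (f : F →* H) (y : H)
    (h : ∀ i, Commute (f (FreeGroup.of i)) y) (v : F) : Commute (f v) y := by
  induction v using FreeGroup.induction_on with
  | C1 => rw [map_one]; exact Commute.one_left _
  | of i => exact h i
  | inv_of i ih => rw [map_inv]; exact ih.inv_left
  | mul a b ha hb => rw [map_mul]; exact ha.mul_left hb

theorem AB (u v : F) : Commute (A u) (Bh v) := by
  apply comm_gen A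
  intro i
  refine (comm_gen Bh _ ?_ v).symm
  intro j
  exact (AB_gen i j).symm

/-- the homomorphism `F × F → G` -/
def AA : F × F →* G := MonoidHom.noncommCoprod A Bh AB

theorem AA_apply (c : F × F) : AA c = A c.1 * Bh c.2 := rfl

theorem diag_t (v : F) : Commute (A v * Bh v) t := by
  let D : F →* G := AA.comp ((MonoidHom.id F).prod (MonoidHom.id F))
  have : Commute (D v) t := by
    apply comm_gen D
    intro i
    have h := mk_rel (Or.inl (Or.inr ⟨i, rfl⟩))
    rw [cm_map, cm_one_iff, map_mul] at h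
    have e : D (FreeGroup.of i) = PresentedGroup.mk relG (ga i) * PresentedGroup.mk relG (gb i) := by
      change A (FreeGroup.of i) * Bh (FreeGroup.of i) = _
      simp [A, Bh, ga, gb]
      rfl
    rw [e]
    exact h.symm
  exact this

/-- elements of `F` whose first copy commutes with `t` -/
def NN : Subgroup F := (Subgroup.centralizer {t}).comap A

theorem mem_NN (r : F) : r ∈ NN ↔ Commute (A r) t := by
  unfold NN
  rw [Subgroup.mem_comap, Subgroup.mem_centralizer_singleton_iff]
  exact ⟨fun h => h, fun h => h⟩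

instance : NN.Normal where
  conj_mem r hr a := by
    rw [mem_NN] at hr ⊢
    have e : A (a * r * a⁻¹) = (A a * Bh a) * A r * (A a * Bh a)⁻¹ := by
      rw [map_mul, map_mul, map_inv, mul_inv_rev]
      have := (AB r a).eq
      calc A a * A r * (A a)⁻¹ = A a * (A r * Bh a) * (Bh a)⁻¹ * (A a)⁻¹ := by group
        _ = A a * (Bh a * A r) * (Bh a)⁻¹ * (A a)⁻¹ := by rw [this]
        _ = _ := by group
    rw [e]
    exact ((diag_t a).mul_left hr).mul_left (diag_t a).inv_left

theorem ker_NN {r : F} (h : pr r = 1) : Commute (A r) t := by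
  rw [← mem_NN]
  have h1 : r ∈ Subgroup.normalClosure relQ := PresentedGroup.mk_eq_one_iff.mp h
  have h2 : Subgroup.normalClosure relQ ≤ NN := by
    apply Subgroup.normalClosure_le_normal
    intro q hq
    change q ∈ NN
    rw [mem_NN, A_eq]
    have h := mk_rel (Or.inr ⟨q, hq, rfl⟩)
    rw [cm_map, cm_one_iff] at h
    exact h.symm
  exact h2 h1

theorem conj_eq {u v : F} (h : pr u = pr v) : A u * t * (A u)⁻¹ = A v * t * (A v)⁻¹ := by
  have h1 : Commute (A (v⁻¹ * u)) t := by
    apply ker_NN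
    rw [map_mul, map_inv, h, inv_mul_cancel]
  have e : A u = A v * A (v⁻¹ * u) := by rw [← map_mul]; congr 1; group
  rw [e, mul_inv_rev]
  calc A v * A (v⁻¹ * u) * t * ((A (v⁻¹ * u))⁻¹ * (A v)⁻¹)
      = A v * (A (v⁻¹ * u) * t) * ((A (v⁻¹ * u))⁻¹ * (A v)⁻¹) := by group
    _ = A v * (t * A (v⁻¹ * u)) * ((A (v⁻¹ * u))⁻¹ * (A v)⁻¹) := by rw [h1.eq]
    _ = _ := by group

noncomputable def out (q : Q) : F := (pr_surj q).choose
theorem pr_out (q : Q) : pr (out q) = q := (pr_surj q).choose_spec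

noncomputable def f1 : FreeGroup Q →* G := FreeGroup.lift fun q => A (out q) * t * (A (out q))⁻¹

theorem f1_of {q : Q} {u : F} (h : pr u = q) : f1 (FreeGroup.of q) = A u * t * (A u)⁻¹ := by
  rw [f1, FreeGroup.lift_apply_of]
  exact conj_eq (by rw [pr_out, h])

theorem B_conj (b : F) : Bh b * t * (Bh b)⁻¹ = (A b)⁻¹ * t * A b := by
  have h := (diag_t b).eq
  have h2 : t = (A b * Bh b) * t * (A b * Bh b)⁻¹ := by rw [h]; group
  have h3 : (A b)⁻¹ * t * A b = (A b)⁻¹ * ((A b * Bh b) * t * (A b * Bh b)⁻¹) * A b := by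
    rw [← h2]
  rw [h3]; group

noncomputable def psi : Gam →* G := SemidirectProduct.lift f1 AA (by
  intro c
  ext q
  change f1 (phi rho c (FreeGroup.of q)) = AA c * f1 (FreeGroup.of q) * (AA c)⁻¹
  rw [phi_apply, FreeGroup.map.of, rho_apply]
  obtain ⟨a, b⟩ := c
  have e1 : pr (a * out q * b⁻¹) = pr a * q * (pr b)⁻¹ := by
    rw [map_mul, map_mul, map_inv, pr_out]
  rw [f1_of e1, f1_of (pr_out q), AA_apply, map_mul, map_mul, map_inv]
  have c1 := (AB (out q) b).eq
  have c2 := B_conj b
  calc A a * A (out q) * (A b)⁻¹ * t * (A a * A (out q) * (A b)⁻¹)⁻¹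
      = A a * A (out q) * ((A b)⁻¹ * t * A b) * (A (out q))⁻¹ * (A a)⁻¹ := by group
    _ = A a * A (out q) * (Bh b * t * (Bh b)⁻¹) * (A (out q))⁻¹ * (A a)⁻¹ := by rw [c2]
    _ = A a * (A (out q) * Bh b) * t * (A (out q) * Bh b)⁻¹ * (A a)⁻¹ := by group
    _ = A a * (Bh b * A (out q)) * t * (Bh b * A (out q))⁻¹ * (A a)⁻¹ := by rw [c1]
    _ = _ := by group)

theorem act_comm {c : F × F} {q : Q} (h : rho c q = q) :
    Commute (SemidirectProduct.inl (FreeGroup.of q) : Gam) (SemidirectProduct.inr c) := by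
  have h1 := SemidirectProduct.inl_aut (φ := phi rho) c (FreeGroup.of q)
  rw [phi_apply, FreeGroup.map.of, h] at h1
  change _ * _ = _ * _
  conv_lhs => rw [h1]
  rw [map_inv]; group

/-- images of the generators -/
def fgen : B → Gam
  | Sum.inl i => SemidirectProduct.inr (FreeGroup.of i, 1)
  | Sum.inr (Sum.inl i) => SemidirectProduct.inr (1, FreeGroup.of i)
  | Sum.inr (Sum.inr _) => SemidirectProduct.inl (FreeGroup.of 1)

theorem lift_ga (q : F) : FreeGroup.lift fgen (FreeGroup.lift ga q) =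
    SemidirectProduct.inr (q, 1) := by
  have : (FreeGroup.lift fgen).comp (FreeGroup.lift ga) =
      (SemidirectProduct.inr (φ := phi rho)).comp (MonoidHom.inl F F) := by
    ext i <;> simp [ga, fgen]
  exact DFunLike.congr_fun this q

theorem fgen_rel : ∀ r ∈ relG, FreeGroup.lift fgen r = 1 := by
  rintro r ((⟨i, j, rfl⟩ | ⟨i, rfl⟩) | ⟨q, hq, rfl⟩)
  · rw [cm_map, cm_one_iff]
    simp only [ga, gb, FreeGroup.lift_apply_of, fgen]
    refine Commute.map ?_ (SemidirectProduct.inr (φ := phi rho))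
    exact Prod.ext (by simp) (by simp)
  · rw [cm_map, cm_one_iff, map_mul]
    simp only [ga, gb, gt, FreeGroup.lift_apply_of, fgen]
    rw [← map_mul]
    apply act_comm
    rw [rho_apply]; simp
  · rw [cm_map, cm_one_iff, lift_ga]
    simp only [gt, FreeGroup.lift_apply_of, fgen]
    apply act_comm
    rw [rho_apply]
    have : pr q = 1 := PresentedGroup.mk_eq_one_iff.mpr (Subgroup.subset_normalClosure hq)
    simp [this]

def phiG : G →* Gam := PresentedGroup.toGroup fgen_rel

theorem phiG_of (b : B) : phiG (PresentedGroup.of b) = fgen b := PresentedGroup.toGroup.of _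

theorem psi_phi : psi.comp phiG = MonoidHom.id G := by
  apply PresentedGroup.ext
  rintro (i | i | i)
  · rw [MonoidHom.comp_apply, phiG_of]
    simp [fgen, psi, AA_apply, A]
  · rw [MonoidHom.comp_apply, phiG_of]
    simp [fgen, psi, AA_apply, Bh]
  · rw [MonoidHom.comp_apply, phiG_of]
    simp only [fgen, psi, SemidirectProduct.lift_inl]
    rw [f1_of (u := 1) (map_one _)]
    simp [t]

theorem phiG_inj : Function.Injective phiG := by
  have : Function.LeftInverse psi phiG := fun x => DFunLike.congr_fun psi_phi x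
  exact this.injective

theorem phiG_A (a b : F) : phiG (A a * Bh b) = SemidirectProduct.inr (a, b) := by
  have h1 : phiG.comp A = (SemidirectProduct.inr (φ := phi rho)).comp (MonoidHom.inl F F) := by
    ext i <;> simp [A, phiG_of, fgen]
  have h2 : phiG.comp Bh = (SemidirectProduct.inr (φ := phi rho)).comp (MonoidHom.inr F F) := by
    ext i <;> simp [Bh, phiG_of, fgen]
  have e1 : phiG (A a) = SemidirectProduct.inr (a, 1) := DFunLike.congr_fun h1 a
  have e2 : phiG (Bh b) = SemidirectProduct.inr (1, b) := DFunLike.congr_fun h2 b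
  rw [map_mul, e1, e2, ← map_mul]; simp

theorem phiG_t : phiG t = SemidirectProduct.inl (FreeGroup.of 1) := phiG_of _

end Pool.Agent.Q103.PA
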