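import Mathlib

namespace Pool.Agent.Q103.PA

open Monoid

/-- Table-tennis lemma for two permutations. -/
theorem pp {T : Type*} (a b : Equiv.Perm T) (X Y : Set T) (hX : X.Nonempty) (hY : Y.Nonempty)
    (hd : Disjoint X Y) (ha : ∀ i : ℤ, i ≠ 0 → ∀ v ∈ Y, (a ^ i) v ∈ X)
    (hb : ∀ i : ℤ, i ≠ 0 → ∀ v ∈ X, (b ^ i) v ∈ Y) :
    Function.Injective (FreeGroup.lift ![a, b]) := by
  classical
  let f : ∀ i : Fin 2, FreeGroup Unit →* Equiv.Perm T := fun i => FreeGroup.lift fun _ => ![a, b] i
  have hlift : (FreeGroup.lift ![a, b]) =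
      (CoprodI.lift fun i => FreeGroup.lift fun _ => ![a, b] i).comp
        (@freeGroupEquivCoprodI (Fin 2)).toMonoidHom := by
    ext i; simp
  rw [hlift, MonoidHom.coe_comp]
  refine Function.Injective.comp ?_ (MulEquiv.injective freeGroupEquivCoprodI)
  refine CoprodI.lift_injective_of_ping_pong f ?_ (fun i => ![X, Y] i) ?_ ?_ ?_
  · right
    refine ⟨0, ?_⟩
    have : Infinite (FreeGroup Unit) := by infer_instance
    exact (Cardinal.nat_lt_aleph0 3).le.trans (Cardinal.infinite_iff.mp this)
  · intro i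
    fin_cases i
    · exact hX
    · exact hY
  · intro i j hij
    fin_cases i <;> fin_cases j <;> simp_all [Function.onFun, disjoint_comm]
  · intro i j hij
    refine FreeGroup.freeGroupUnitEquivInt.forall_congr_left.mpr ?_
    intro n hn
    have hn0 : n ≠ 0 := by
      rintro rfl
      exact hn (by simp [FreeGroup.freeGroupUnitEquivInt])
    have hf : f i (FreeGroup.freeGroupUnitEquivInt.symm n) = (![a, b] i) ^ n := by
      simp [f, FreeGroup.freeGroupUnitEquivInt]
    rw [hf]
    rintro _ ⟨v, hv, rfl⟩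
    fin_cases i <;> fin_cases j
    · exact absurd rfl hij
    · exact ha n hn0 v hv
    · exact hb n hn0 v hv
    · exact absurd rfl hij

end Pool.Agent.Q103.PA
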