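import Pool.Agent.Q103.PA.Conc

namespace Pool.Agent.Q103.PA

open Equiv

/-- a convenient form of the power alternative -/
def PA (G : Type*) [Group G] : Prop :=
  ∀ g h : G, ∃ n : ℕ, 1 ≤ n ∧
    (Commute (g ^ n) (h ^ n) ∨ Function.Injective (FreeGroup.lift ![g ^ n, h ^ n]))

/-- a stronger form -/
def SPA (G : Type*) [Group G] : Prop :=
  ∀ g h : G, Commute g h ∨ ∃ n : ℕ, 1 ≤ n ∧ Function.Injective (FreeGroup.lift ![g ^ n, h ^ n])

theorem inj_of_hom {G H : Type*} [Group G] [Group H] (f : G →* H) {x y : G}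
    (h : Function.Injective (FreeGroup.lift ![f x, f y])) :
    Function.Injective (FreeGroup.lift ![x, y]) := by
  have e : f.comp (FreeGroup.lift ![x, y]) = FreeGroup.lift ![f x, f y] := by
    ext i; fin_cases i <;> simp
  rw [← e, MonoidHom.coe_comp] at h
  exact h.of_comp

theorem SPA.prod {A B : Type*} [Group A] [Group B] (hA : SPA A) (hB : SPA B) : SPA (A × B) := by
  intro g h
  rcases hA g.1 h.1 with h1 | ⟨n, hn, h1⟩
  · rcases hB g.2 h.2 with h2 | ⟨n, hn, h2⟩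
    · left; exact Prod.ext h1 h2
    · right
      refine ⟨n, hn, inj_of_hom (MonoidHom.snd A B) ?_⟩
      simpa using h2
  · right
    refine ⟨n, hn, inj_of_hom (MonoidHom.fst A B) ?_⟩
    simpa using h1

theorem SPA.pa {A : Type*} [Group A] (hA : SPA A) : PA A := by
  intro g h
  rcases hA g h with h1 | ⟨n, hn, h1⟩
  · exact ⟨1, le_rfl, Or.inl (by rw [pow_one, pow_one]; exact h1)⟩
  · exact ⟨n, hn, Or.inr h1⟩

theorem spa_free (X : Type) : SPA (FreeGroup X) := by
  classical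
  intro g h
  let L : FreeGroup X →* Perm (FreeGroup X) :=
    { toFun := fun w => aff w 1
      map_one' := aff_one
      map_mul' := fun a b => by rw [aff_mul, map_one', mul_one] }
  have hs : PStar (1 : Perm X) := fun x j _ _ => rfl
  rcases D0 (w := g) (w' := h) hs hs (Commute.refl _) with h1 | ⟨n, hn, h1⟩
  · left
    have h2 : L (g * h) = L (h * g) := by rw [map_mul, map_mul]; exact h1
    have h3 := congrArg (fun π : Perm (FreeGroup X) => π 1) h2
    change g * h = h * g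
    simpa [L, aff_apply] using h3
  · right
    refine ⟨n, hn, inj_of_hom L ?_⟩
    rw [map_pow, map_pow]
    exact h1

section
variable {X : Type} {A : Type*} [Group A] (ρ : A →* Perm X)

/-- the induced action on the free group -/
def phi : A →* MulAut (FreeGroup X) where
  toFun a := FreeGroup.freeGroupCongr (ρ a)
  map_one' := by
    ext v
    change FreeGroup.map (ρ 1) v = v
    rw [map_one]; exact map_one' v
  map_mul' a b := by
    ext v
    change FreeGroup.map (ρ (a * b)) v = FreeGroup.map (ρ a) (FreeGroup.map (ρ b) v)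
    rw [map_mul, map_comp']

theorem phi_apply (a : A) (v : FreeGroup X) : phi ρ a v = FreeGroup.map (ρ a) v := rfl

/-- the action of the semidirect product on the free group -/
def act : (FreeGroup X ⋊[phi ρ] A) →* Perm (FreeGroup X) where
  toFun g := aff g.left (ρ g.right)
  map_one' := by
    rw [SemidirectProduct.one_left, SemidirectProduct.one_right, map_one, aff_one]
  map_mul' g h := by
    rw [aff_mul, SemidirectProduct.mul_left, SemidirectProduct.mul_right, map_mul, phi_apply]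

theorem act_apply (g : FreeGroup X ⋊[phi ρ] A) (v : FreeGroup X) :
    act ρ g v = g.left * FreeGroup.map (ρ g.right) v := rfl

theorem per (σ : Perm X) (S : Finset X) :
    ∃ m : ℕ, 1 ≤ m ∧ ∀ s ∈ S, ∀ j : ℤ, j ≠ 0 → (σ ^ j) s = s → (σ ^ m) s = s := by
  classical
  have h1 : ∀ s : X, ∃ m : ℕ, 1 ≤ m ∧ ∀ j : ℤ, j ≠ 0 → (σ ^ j) s = s → (σ ^ m) s = s := by
    intro s
    by_cases h : ∃ j : ℤ, j ≠ 0 ∧ (σ ^ j) s = s
    · obtain ⟨j, hj, hs⟩ := h
      refine ⟨j.natAbs, Int.natAbs_pos.mpr hj, fun _ _ _ => ?_⟩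
      rcases Int.natAbs_eq j with e | e
      · rw [e, zpow_natCast] at hs; exact hs
      · rw [e, zpow_neg, zpow_natCast, Perm.inv_eq_iff_eq] at hs
        exact hs.symm
    · push Not at h
      exact ⟨1, le_rfl, fun j hj hs => absurd hs (h j hj)⟩
  choose f hf1 hf2 using h1
  refine ⟨∏ s ∈ S, f s, ?_, ?_⟩
  · exact Finset.one_le_prod' (fun s _ => hf1 s)
  · intro s hs j hj hjs
    obtain ⟨c, hc⟩ := Finset.dvd_prod_of_mem f hs
    rw [hc, pow_mul]
    exact Function.IsFixedPt.perm_pow (e := σ ^ f s) (hf2 s j hj hjs) c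

theorem supp (v : FreeGroup X) : ∃ S : Finset X, ∀ X₀ : Set X, (∀ s ∈ S, s ∈ X₀) →
    ∃ w : FreeGroup X₀, FreeGroup.map Subtype.val w = v := by
  classical
  induction v using FreeGroup.induction_on with
  | C1 => exact ⟨∅, fun X₀ _ => ⟨1, map_one _⟩⟩
  | of x => exact ⟨{x}, fun X₀ h => ⟨FreeGroup.of ⟨x, h x (by simp)⟩, by simp⟩⟩
  | inv_of x ih =>
    obtain ⟨S, hS⟩ := ih
    refine ⟨S, fun X₀ h => ?_⟩
    obtain ⟨w, hw⟩ := hS X₀ h
    exact ⟨w⁻¹, by rw [map_inv, hw]⟩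
  | mul x y hx hy =>
    obtain ⟨S, hS⟩ := hx
    obtain ⟨S', hS'⟩ := hy
    refine ⟨S ∪ S', fun X₀ h => ?_⟩
    obtain ⟨w, hw⟩ := hS X₀ (fun s hs => h s (Finset.mem_union_left _ hs))
    obtain ⟨w', hw'⟩ := hS' X₀ (fun s hs => h s (Finset.mem_union_right _ hs))
    exact ⟨w * w', by rw [map_mul, hw, hw']⟩

/-- the main case -/
theorem sd_main (g h : FreeGroup X ⋊[phi ρ] A) (hc : Commute g.right h.right) :
    ∃ n : ℕ, 1 ≤ n ∧
      (Commute (g ^ n) (h ^ n) ∨ Function.Injective (FreeGroup.lift ![g ^ n, h ^ n])) := by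
  classical
  set σ := ρ g.right with hσ
  set τ := ρ h.right with hτ
  have hst : Commute σ τ := hc.map ρ
  obtain ⟨S1, hS1⟩ := supp g.left
  obtain ⟨S2, hS2⟩ := supp h.left
  set S := S1 ∪ S2 with hSdef
  let X₀ : Set X := {y | ∃ i j : ℤ, ∃ s ∈ S, y = (σ ^ i) ((τ ^ j) s)}
  have hSX : ∀ s ∈ S, s ∈ X₀ := fun s hs => ⟨0, 0, s, hs, by simp⟩
  obtain ⟨w, hw⟩ := hS1 X₀ (fun s hs => hSX s (Finset.mem_union_left _ hs))
  obtain ⟨w', hw'⟩ := hS2 X₀ (fun s hs => hSX s (Finset.mem_union_right _ hs))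
  have hτσ : ∀ (a b : ℤ) (x : X), (σ ^ a) ((τ ^ b) x) = (τ ^ b) ((σ ^ a) x) := by
    intro a b x
    have := (hst.zpow_zpow a b).eq
    rw [← Perm.mul_apply, this, Perm.mul_apply]
  have invσ : ∀ x, σ x ∈ X₀ ↔ x ∈ X₀ := by
    intro x
    constructor
    · rintro ⟨i, j, s, hs, e⟩
      refine ⟨i - 1, j, s, hs, ?_⟩
      rw [sub_eq_add_neg, add_comm, zpow_add, Perm.mul_apply, ← e]
      simp
    · rintro ⟨i, j, s, hs, e⟩
      refine ⟨1 + i, j, s, hs, ?_⟩
      rw [zpow_add, Perm.mul_apply, ← e, zpow_one]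
  have invτ : ∀ x, τ x ∈ X₀ ↔ x ∈ X₀ := by
    intro x
    constructor
    · rintro ⟨i, j, s, hs, e⟩
      refine ⟨i, j - 1, s, hs, ?_⟩
      rw [hτσ, sub_eq_add_neg, add_comm, zpow_add, Perm.mul_apply, ← hτσ, ← e]
      simp
    · rintro ⟨i, j, s, hs, e⟩
      refine ⟨i, 1 + j, s, hs, ?_⟩
      rw [hτσ, zpow_add, Perm.mul_apply, ← hτσ, ← e, zpow_one]
  let σ₀ : Perm X₀ := σ.subtypePerm invσ
  let τ₀ : Perm X₀ := τ.subtypePerm invτ
  have hc0 : Commute σ₀ τ₀ := by
    ext x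
    change σ (τ x.1) = τ (σ x.1)
    have := hτσ 1 1 x.1
    simpa using this
  have vz : ∀ (a : ℤ) (x : X₀), ((σ₀ ^ a) x).1 = (σ ^ a) x.1 := by
    intro a x
    rw [Perm.subtypePerm_zpow]; rfl
  have vz' : ∀ (a : ℤ) (x : X₀), ((τ₀ ^ a) x).1 = (τ ^ a) x.1 := by
    intro a x
    rw [Perm.subtypePerm_zpow]; rfl
  obtain ⟨m1, hm1, hp1⟩ := per σ S
  obtain ⟨m2, hm2, hp2⟩ := per τ S
  set m := m1 * m2 with hm
  have hmpos : 1 ≤ m := Nat.mul_pos hm1 hm2
  have PS1 : PStar (σ₀ ^ m) := by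
    rintro ⟨x, i, j, s, hs, rfl⟩ l hl e
    have hl' : (m : ℤ) * l ≠ 0 := mul_ne_zero (by exact_mod_cast (by omega)) hl
    have e1 := congrArg Subtype.val e
    rw [← zpow_natCast, ← zpow_mul, vz] at e1
    have e2 : (σ ^ ((m:ℤ) * l)) s = s := by
      have : (σ ^ i) ((τ ^ j) ((σ ^ ((m:ℤ) * l)) s)) = (σ ^ i) ((τ ^ j) s) := by
        rw [← hτσ, ← Perm.mul_apply, ← zpow_add, add_comm, zpow_add, Perm.mul_apply]
        exact e1
      exact (τ ^ j).injective ((σ ^ i).injective this)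
    have e3 := hp1 s hs _ hl' e2
    have e4 : (σ ^ m) s = s := by
      rw [hm, pow_mul]; exact Function.IsFixedPt.perm_pow (e := σ ^ m1) e3 m2
    apply Subtype.ext
    rw [← zpow_natCast, vz]
    change (σ ^ (m:ℤ)) ((σ ^ i) ((τ ^ j) s)) = (σ ^ i) ((τ ^ j) s)
    rw [← Perm.mul_apply, ← zpow_add, add_comm, zpow_add, Perm.mul_apply, hτσ m j, zpow_natCast, e4]
  have PS2 : PStar (τ₀ ^ m) := by
    rintro ⟨x, i, j, s, hs, rfl⟩ l hl e
    have hl' : (m : ℤ) * l ≠ 0 := mul_ne_zero (by exact_mod_cast (by omega)) hl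
    have e1 := congrArg Subtype.val e
    rw [← zpow_natCast, ← zpow_mul, vz'] at e1
    have e2 : (τ ^ ((m:ℤ) * l)) s = s := by
      have : (σ ^ i) ((τ ^ j) ((τ ^ ((m:ℤ) * l)) s)) = (σ ^ i) ((τ ^ j) s) := by
        rw [← Perm.mul_apply (τ ^ j), ← zpow_add, add_comm, zpow_add, Perm.mul_apply, hτσ]
        exact e1
      exact (τ ^ j).injective ((σ ^ i).injective this)
    have e3 := hp2 s hs _ hl' e2
    have e4 : (τ ^ m) s = s := by
      rw [hm, mul_comm, pow_mul]; exact Function.IsFixedPt.perm_pow (e := τ ^ m2) e3 m1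
    apply Subtype.ext
    rw [← zpow_natCast, vz']
    change (τ ^ (m:ℤ)) ((σ ^ i) ((τ ^ j) s)) = (σ ^ i) ((τ ^ j) s)
    rw [← hτσ, ← Perm.mul_apply (τ ^ (m:ℤ)), ← zpow_add, add_comm, zpow_add, Perm.mul_apply,
      zpow_natCast τ m, e4]
  -- the relation between the two actions
  let ι : FreeGroup X₀ →* FreeGroup X := FreeGroup.map Subtype.val
  have hι : Function.Injective ι := FreeGroup.map_injective Subtype.val_injective
  let R : (FreeGroup X ⋊[phi ρ] A) → Perm (FreeGroup X₀) → Prop :=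
    fun γ π => ∀ u, act ρ γ (ι u) = ι (π u)
  have Rmul : ∀ γ γ' π π', R γ π → R γ' π' → R (γ * γ') (π * π') := by
    intro γ γ' π π' h1 h2 u
    rw [map_mul, Perm.mul_apply, Perm.mul_apply, h2, h1]
  have Rinv : ∀ γ π, R γ π → R γ⁻¹ π⁻¹ := by
    intro γ π h1 u
    rw [map_inv, Perm.inv_eq_iff_eq, h1]; simp
  have Rone : R 1 1 := by intro u; simp
  have Rpow : ∀ γ π (n : ℕ), R γ π → R (γ ^ n) (π ^ n) := by
    intro γ π n h1
    induction n with
    | zero => simpa using Rone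
    | succ n ih => rw [pow_succ, pow_succ]; exact Rmul _ _ _ _ ih h1
  have Rg : R g (aff w σ₀) := by
    intro u
    rw [act_apply, aff_apply, map_mul, ← hσ]
    congr 1
    · exact hw.symm
    · change FreeGroup.map σ (FreeGroup.map _ u) = FreeGroup.map _ (FreeGroup.map σ₀ u)
      rw [FreeGroup.map.comp, FreeGroup.map.comp]; rfl
  have Rh : R h (aff w' τ₀) := by
    intro u
    rw [act_apply, aff_apply, map_mul, ← hτ]
    congr 1
    · exact hw'.symm
    · change FreeGroup.map τ (FreeGroup.map _ u) = FreeGroup.map _ (FreeGroup.map τ₀ u)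
      rw [FreeGroup.map.comp, FreeGroup.map.comp]; rfl
  obtain ⟨wm, hwm⟩ := aff_pow w σ₀ m
  obtain ⟨wm', hwm'⟩ := aff_pow w' τ₀ m
  have Rg' := Rpow _ _ m Rg
  have Rh' := Rpow _ _ m Rh
  rw [hwm] at Rg'
  rw [hwm'] at Rh'
  rcases D0 (w := wm) (w' := wm') PS1 PS2 (hc0.pow_pow m m) with hcc | ⟨n, hn, hinj⟩
  · refine ⟨m, hmpos, Or.inl ?_⟩
    have r1 := Rmul _ _ _ _ Rg' Rh' 1
    have r2 := Rmul _ _ _ _ Rh' Rg' 1
    rw [hcc.eq] at r1
    have r3 : act ρ (g ^ m * h ^ m) (ι 1) = act ρ (h ^ m * g ^ m) (ι 1) := by rw [r1, r2]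
    rw [act_apply, act_apply, map_one, map_one, map_one, mul_one, mul_one] at r3
    apply SemidirectProduct.ext r3
    have := hc.pow_pow m m
    have pr : ∀ (x : FreeGroup X ⋊[phi ρ] A) (n : ℕ), (x ^ n).right = x.right ^ n := by
      intro x n
      exact map_pow (SemidirectProduct.rightHom (φ := phi ρ)) x n
    rw [SemidirectProduct.mul_right, SemidirectProduct.mul_right, pr, pr]
    exact this
  · refine ⟨m * n, Nat.mul_pos hmpos hn, Or.inr ?_⟩
    have RR : ∀ z : FreeGroup (Fin 2), R (FreeGroup.lift ![g ^ (m * n), h ^ (m * n)] z)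
        (FreeGroup.lift ![aff wm (σ₀ ^ m) ^ n, aff wm' (τ₀ ^ m) ^ n] z) := by
      intro z
      have R0 : R (g ^ (m * n)) (aff wm (σ₀ ^ m) ^ n) := by
        rw [pow_mul]; exact Rpow _ _ n Rg'
      have R1 : R (h ^ (m * n)) (aff wm' (τ₀ ^ m) ^ n) := by
        rw [pow_mul]; exact Rpow _ _ n Rh'
      generalize g ^ (m * n) = G0 at R0 ⊢
      generalize h ^ (m * n) = H0 at R1 ⊢
      generalize aff wm (σ₀ ^ m) ^ n = P0 at R0 ⊢
      generalize aff wm' (τ₀ ^ m) ^ n = Q0 at R1 ⊢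
      have base : ∀ i : Fin 2, R (FreeGroup.lift ![G0, H0] (FreeGroup.of i))
        (FreeGroup.lift ![P0, Q0] (FreeGroup.of i)) := by
        intro i
        rw [FreeGroup.lift_apply_of, FreeGroup.lift_apply_of]
        fin_cases i
        · exact R0
        · exact R1
      induction z using FreeGroup.induction_on with
      | C1 => rw [map_one, map_one]; exact Rone
      | of i => exact base i
      | inv_of i ih => rw [map_inv, map_inv]; exact Rinv _ _ ih
      | mul x y hx hy => rw [map_mul, map_mul]; exact Rmul _ _ _ _ hx hy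
    rw [injective_iff_map_eq_one]
    intro z hz
    have r := RR z
    rw [hz] at r
    rw [injective_iff_map_eq_one] at hinj
    apply hinj
    ext u
    have := r u
    rw [map_one] at this
    exact hι this.symm

theorem sd_pa (hA : PA A) : PA (FreeGroup X ⋊[phi ρ] A) := by
  intro g h
  have pr : ∀ (x : FreeGroup X ⋊[phi ρ] A) (n : ℕ), (x ^ n).right = x.right ^ n := by
    intro x n
    exact map_pow (SemidirectProduct.rightHom (φ := phi ρ)) x n
  obtain ⟨n, hn, h1 | h1⟩ := hA g.right h.right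
  · obtain ⟨m, hm, h2⟩ := sd_main ρ (g ^ n) (h ^ n) (by rw [pr, pr]; exact h1)
    refine ⟨n * m, Nat.mul_pos hn hm, ?_⟩
    rw [pow_mul, pow_mul]; exact h2
  · refine ⟨n, hn, Or.inr (inj_of_hom (SemidirectProduct.rightHom (φ := phi ρ)) ?_)⟩
    rw [map_pow, map_pow]; exact h1

end

end Pool.Agent.Q103.PA
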