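import Pool.Agent.Q103.PA.PP

namespace Pool.Agent.Q103.PA

open Equiv

variable {T : Type*}

/-- integer-valued tree metrics -/
structure Tr (d : T → T → ℤ) : Prop where
  zero : ∀ u, d u u = 0
  sep : ∀ u v, d u v = 0 → u = v
  symm : ∀ u v, d u v = d v u
  hyp : ∀ x y z w, d x y + d z w ≤ max (d x z + d y w) (d x w + d y z)
  step : ∀ p u v, d u v < d p u + d p v →
    ∃ q, d p q = 1 ∧ 1 + d q u = d p u ∧ 1 + d q v = d p v

variable {d : T → T → ℤ}

theorem Tr.nn (hT : Tr d) (u v : T) : 0 ≤ d u v := by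
  have := hT.hyp u u v v
  rw [hT.zero, hT.zero] at this
  simp at this
  omega

theorem Tr.tri (hT : Tr d) (u v w : T) : d u w ≤ d u v + d v w := by
  have := hT.hyp u w v v
  rw [hT.zero, hT.symm w v] at this
  simp at this
  omega

def Iso (d : T → T → ℤ) (g : Perm T) : Prop := ∀ u v, d (g u) (g v) = d u v

theorem Iso.inv {g : Perm T} (h : Iso d g) : Iso d g⁻¹ := by
  intro u v
  rw [← h (g⁻¹ u) (g⁻¹ v)]
  simp

theorem Iso.pow {g : Perm T} (h : Iso d g) (n : ℕ) : Iso d (g ^ n) := by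
  induction n with
  | zero => intro u v; simp
  | succ n ih =>
    intro u v
    rw [pow_succ', Perm.mul_apply, Perm.mul_apply, h, ih]

theorem Iso.zpow {g : Perm T} (h : Iso d g) (n : ℤ) : Iso d (g ^ n) := by
  cases n with
  | ofNat n => simpa using h.pow n
  | negSucc n => rw [zpow_negSucc]; exact (h.pow _).inv

/-- key estimate -/
theorem key (hT : Tr d) {o A B v : T} (h1 : d o A < d A B) (h2 : d o B < d A B)
    (h3 : d B v < d o v) : d o v < d A v := by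
  have h := hT.hyp o v A B
  have e1 := hT.symm v B
  have e2 := hT.symm v A
  rcases le_max_iff.mp h with h | h <;> omega

theorem c1 (hT : Tr d) {g h : Perm T} (hg : Iso d g) (hh : Iso d h) (o : T)
    (H1 : ∀ i j : ℤ, i ≠ 0 → j ≠ 0 → d o ((g ^ i) o) < d ((g ^ i) o) ((h ^ j) o))
    (H2 : ∀ i j : ℤ, i ≠ 0 → j ≠ 0 → d o ((h ^ j) o) < d ((g ^ i) o) ((h ^ j) o)) :
    Function.Injective (FreeGroup.lift ![g, h]) := by
  have ig : ∀ (i : ℤ) (v : T), d o ((g ^ i) v) = d ((g ^ (-i)) o) v := by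
    intro i v
    rw [← hg.zpow i ((g ^ (-i)) o) v, ← Perm.mul_apply, ← zpow_add]; simp
  have ih : ∀ (i : ℤ) (v : T), d o ((h ^ i) v) = d ((h ^ (-i)) o) v := by
    intro i v
    rw [← hh.zpow i ((h ^ (-i)) o) v, ← Perm.mul_apply, ← zpow_add]; simp
  refine pp g h {v | ∃ i : ℤ, i ≠ 0 ∧ d ((g ^ i) o) v < d o v}
    {v | ∃ i : ℤ, i ≠ 0 ∧ d ((h ^ i) o) v < d o v} ?_ ?_ ?_ ?_ ?_
  · refine ⟨(g ^ (1:ℤ)) o, 1, one_ne_zero, ?_⟩
    rw [hT.zero]
    have := H1 1 1 one_ne_zero one_ne_zero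
    have h2 := H2 1 1 one_ne_zero one_ne_zero
    have h3 := hT.tri ((g ^ (1:ℤ)) o) o ((h ^ (1:ℤ)) o)
    have h4 := hT.symm ((g ^ (1:ℤ)) o) o
    omega
  · refine ⟨(h ^ (1:ℤ)) o, 1, one_ne_zero, ?_⟩
    rw [hT.zero]
    have := H1 1 1 one_ne_zero one_ne_zero
    have h2 := H2 1 1 one_ne_zero one_ne_zero
    have h3 := hT.tri ((g ^ (1:ℤ)) o) o ((h ^ (1:ℤ)) o)
    have h4 := hT.symm ((g ^ (1:ℤ)) o) o
    omega
  · rw [Set.disjoint_left]
    rintro v ⟨i, hi, h1⟩ ⟨j, hj, h2⟩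
    have := key hT (H1 i j hi hj) (H2 i j hi hj) h2
    omega
  · rintro i hi v ⟨j, hj, h1⟩
    refine ⟨i, hi, ?_⟩
    rw [hg.zpow i, ig]
    exact key hT (H1 _ _ (neg_ne_zero.mpr hi) hj) (H2 _ _ (neg_ne_zero.mpr hi) hj) h1
  · rintro i hi v ⟨j, hj, h1⟩
    refine ⟨i, hi, ?_⟩
    rw [hh.zpow i, ih]
    have a1 := H1 _ _ hj (neg_ne_zero.mpr hi)
    have a2 := H2 _ _ hj (neg_ne_zero.mpr hi)
    rw [hT.symm ((g ^ j) o)] at a1 a2
    exact key hT a2 a1 h1

theorem c2 (hT : Tr d) {k h : Perm T} (hk : Iso d k) (hh : Iso d h) (o : T) (ko : k o = o)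
    (H1 : ∀ j i l : ℤ, j ≠ 0 → i ≠ 0 → l ≠ 0 →
      d o ((h ^ i) o) < d ((k ^ j) ((h ^ i) o)) ((h ^ l) o))
    (H2 : ∀ j i l : ℤ, j ≠ 0 → i ≠ 0 → l ≠ 0 →
      d o ((h ^ l) o) < d ((k ^ j) ((h ^ i) o)) ((h ^ l) o)) :
    Function.Injective (FreeGroup.lift ![k, h]) := by
  have kfix : ∀ j : ℤ, (k ^ j) o = o := by
    intro j
    exact (Function.IsFixedPt.perm_zpow (e := k) ko j)
  have kd : ∀ (j : ℤ) (v : T), d o ((k ^ j) v) = d o v := by
    intro j v
    conv_lhs => rw [← kfix j]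
    exact hk.zpow j o v
  have ih : ∀ (i : ℤ) (v : T), d o ((h ^ i) v) = d ((h ^ (-i)) o) v := by
    intro i v
    rw [← hh.zpow i ((h ^ (-i)) o) v, ← Perm.mul_apply, ← zpow_add]; simp
  refine pp k h {v | ∃ j i : ℤ, j ≠ 0 ∧ i ≠ 0 ∧ d ((k ^ j) ((h ^ i) o)) v < d o v}
    {v | ∃ i : ℤ, i ≠ 0 ∧ d ((h ^ i) o) v < d o v} ?_ ?_ ?_ ?_ ?_
  · refine ⟨(k ^ (1:ℤ)) ((h ^ (1:ℤ)) o), 1, 1, one_ne_zero, one_ne_zero, ?_⟩
    rw [hT.zero, kd]
    have a1 := H1 1 1 1 one_ne_zero one_ne_zero one_ne_zero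
    have h3 := hT.tri ((k ^ (1:ℤ)) ((h ^ (1:ℤ)) o)) o ((h ^ (1:ℤ)) o)
    have h4 := hT.symm ((k ^ (1:ℤ)) ((h ^ (1:ℤ)) o)) o
    rw [kd] at h4
    omega
  · refine ⟨(h ^ (1:ℤ)) o, 1, one_ne_zero, ?_⟩
    rw [hT.zero]
    have a1 := H1 1 1 1 one_ne_zero one_ne_zero one_ne_zero
    have h3 := hT.tri ((k ^ (1:ℤ)) ((h ^ (1:ℤ)) o)) o ((h ^ (1:ℤ)) o)
    have h4 := hT.symm ((k ^ (1:ℤ)) ((h ^ (1:ℤ)) o)) o
    rw [kd] at h4
    omega
  · rw [Set.disjoint_left]
    rintro v ⟨j, i, hj, hi, h1⟩ ⟨l, hl, h2⟩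
    have a1 := H1 j i l hj hi hl
    have a2 := H2 j i l hj hi hl
    have := key hT (o := o) (A := (k ^ j) ((h ^ i) o)) (B := (h ^ l) o) (v := v)
      (by rw [kd]; exact a1) a2 h2
    omega
  · rintro i hi v ⟨j, hj, h1⟩
    refine ⟨i, j, hi, hj, ?_⟩
    rw [hk.zpow i, kd]
    exact h1
  · rintro l hl v ⟨j, i, hj, hi, h1⟩
    refine ⟨l, hl, ?_⟩
    rw [hh.zpow l, ih]
    have a1 := H1 j i (-l) hj hi (neg_ne_zero.mpr hl)
    have a2 := H2 j i (-l) hj hi (neg_ne_zero.mpr hl)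
    rw [hT.symm ((k ^ j) ((h ^ i) o))] at a1 a2
    exact key hT a2 (by rw [kd]; exact a1) h1

def Good (d : T → T → ℤ) (g : Perm T) (p : T) : Prop := d p (g (g p)) = 2 * d p (g p)

theorem Good.inv (hT : Tr d) {g : Perm T} (hg : Iso d g) {p : T} (h : Good d g p) :
    Good d g⁻¹ p := by
  unfold Good at *
  have e1 : d p (g⁻¹ (g⁻¹ p)) = d p (g (g p)) := by
    rw [← hg p, ← hg (g p)]; simp [hT.symm]
  have e2 : d p (g⁻¹ p) = d p (g p) := by
    rw [← hg p]; simp [hT.symm]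
  rw [e1, e2, h]

theorem inv_d (hT : Tr d) {g : Perm T} (hg : Iso d g) (p : T) : d p (g⁻¹ p) = d p (g p) := by
  rw [← hg p]; simp [hT.symm]

theorem good_pow (hT : Tr d) {g : Perm T} (hg : Iso d g) {p : T} (h : Good d g p) (n : ℕ) :
    d p ((g ^ n) p) = n * d p (g p) := by
  have ha := hT.nn p (g p)
  set a := d p (g p) with hadef
  have step1 : ∀ n : ℕ, d ((g ^ n) p) ((g ^ (n+1)) p) = a := by
    intro n
    rw [pow_succ, Perm.mul_apply, hg.pow n]
  have step2 : ∀ n : ℕ, d ((g ^ n) p) ((g ^ (n+2)) p) = 2 * a := by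
    intro n
    rw [pow_add, Perm.mul_apply, hg.pow n, pow_two, Perm.mul_apply]; exact h
  rcases ha.eq_or_lt with h0 | hpos
  · have : g p = p := (hT.sep _ _ h0.symm).symm
    have h1 : (g ^ n) p = p := Function.IsFixedPt.perm_pow (e := g) this n
    rw [h1, hT.zero, ← h0]; simp
  · have : ∀ n : ℕ, d p ((g ^ n) p) = n * a ∧ d p ((g ^ (n+1)) p) = (n + 1 : ℕ) * a := by
      intro n
      induction n with
      | zero => refine ⟨by simp [hT.zero], by simp [hadef]⟩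
      | succ n ih =>
        obtain ⟨i1, i2⟩ := ih
        refine ⟨i2, ?_⟩
        have q := hT.hyp p ((g ^ (n+1)) p) ((g ^ n) p) ((g ^ (n+1+1)) p)
        have q2 := hT.tri p ((g ^ (n+1)) p) ((g ^ (n+1+1)) p)
        have s1 := step1 n
        have s2 := step1 (n+1)
        have s3 := step2 n
        have s4 := hT.symm ((g ^ n) p) ((g ^ (n+1)) p)
        have hn : 0 ≤ (n : ℤ) * a := by positivity
        have e : ((n + 1 + 1 : ℕ) : ℤ) * a = n * a + 2 * a := by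
          rw [Nat.cast_succ, Nat.cast_succ]; ring
        have e' : ((n + 1 : ℕ) : ℤ) * a = n * a + a := by rw [Nat.cast_succ]; ring
        rw [e] ; rw [e'] at i2
        have s3' : d ((g ^ n) p) ((g ^ (n + 1 + 1)) p) = 2 * a := s3
        rcases le_max_iff.mp q with q | q <;> omega
    exact (this n).1

theorem seg_good (hT : Tr d) {g : Perm T} (hg : Iso d g) {p q : T} (h : Good d g p)
    (hq : d p q + d q (g p) = d p (g p)) : Good d g q := by
  have h2 := good_pow hT hg h 2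
  have h3 := good_pow hT hg h 3
  have t1 := hT.tri q (g p) (g q)
  have t2 := hg p q
  have t3 := hT.tri p q ((g ^ 3) p)
  have t4 := hT.tri q (g (g q)) ((g ^ 3) p)
  have t5 : d (g (g q)) ((g ^ 3) p) = d q (g p) := by
    rw [pow_succ, Perm.mul_apply, pow_two, Perm.mul_apply, hg, hg]
  have t6 := hT.tri q (g q) (g (g q))
  have t7 := hg q (g q)
  have t8 := hT.tri p q (g (g p))
  have t9 := hT.tri q (g q) (g (g p))
  have t10 := hg q (g p)
  have e2 : (g ^ 2) p = g (g p) := by rw [pow_two, Perm.mul_apply]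
  rw [e2] at h2
  unfold Good at *
  simp only [Nat.cast_ofNat] at h2 h3
  omega

/-- uniqueness of points on a common initial segment -/
theorem ovl (hT : Tr d) {p U V A B : T} {L : ℤ} (hA : d p A = L) (hB : d p B = L)
    (hAU : d A U ≤ d p U - L) (hBV : d B V ≤ d p V - L)
    (hUV : d U V ≤ d p U + d p V - 2 * L) : A = B := by
  apply hT.sep
  have n := hT.nn A B
  have h1 := hT.hyp A V p U
  have h2 := hT.hyp A B p V
  have s1 := hT.symm A p
  have s2 := hT.symm V U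
  have s3 := hT.symm V p
  have s4 := hT.symm B p
  rcases le_max_iff.mp h1 with h1 | h1 <;> rcases le_max_iff.mp h2 with h2 | h2 <;> omega

/-- every isometry without inversions has a good point -/
theorem exists_good (hT : Tr d) {g : Perm T} (hg : Iso d g) [Nonempty T]
    (noinv : ∀ p, d p (g p) = 1 → g (g p) ≠ p) : ∃ p, Good d g p := by
  obtain ⟨p, hp⟩ : ∃ p, ∀ q, (d p (g p)).toNat ≤ (d q (g q)).toNat := by
    have hwf := WellFounded.has_min (measure (fun p => (d p (g p)).toNat)).wf Set.univ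
      Set.univ_nonempty
    obtain ⟨p, -, hp⟩ := hwf
    refine ⟨p, fun q => ?_⟩
    have := hp q trivial
    exact not_lt.mp this
  refine ⟨p, ?_⟩
  by_contra hn
  unfold Good at hn
  have t1 := hT.tri p (g p) (g (g p))
  have t2 := hg p (g p)
  have s1 := hT.symm (g p) p
  obtain ⟨q, q1, q2, q3⟩ := hT.step (g p) p (g (g p)) (by omega)
  have r0 := hp (g⁻¹ q)
  have e1 : g (g⁻¹ q) = q := by simp
  rw [e1] at r0
  have r1 : d (g⁻¹ q) p = 1 := by
    rw [← hg]; simp; rw [hT.symm]; exact q1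
  have r2 : d (g⁻¹ q) (g p) = d q (g (g p)) := by
    rw [← hg]; simp
  have n1 := hT.nn p (g p)
  have n2 := hT.nn (g⁻¹ q) q
  have n3 := hT.nn q p
  have hy := hT.hyp (g⁻¹ q) q p (g p)
  have s2 := hT.symm q (g p)
  have s3 := hT.symm q p
  by_cases hD : d p (g p) = 1
  · apply noinv p hD
    have z1 : q = p := hT.sep _ _ (by omega)
    have z2 : q = g (g p) := hT.sep _ _ (by omega)
    rw [← z2, z1]
  · rcases le_max_iff.mp hy with hy | hy <;> omega

end Pool.Agent.Q103.PA
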